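import Mathlib

/-!
Definitions used in the statement: the circle, the Riesz projection `P₊` (through Fourier
coefficients), the Toeplitz symbol space `ST(H^∞)`, the space `H^∞` and generalized Douglas algebras.
-/

set_option autoImplicit false

namespace Pool.Agent.Lib.MP_e9aa5f_an

open MeasureTheory AddCircle

/-- The unit circle, parametrised by `ℝ / ℤ`: the parameter `x` stands for the point `e^{2πix}`. -/
abbrev Circ : Type := UnitAddCircle

/-- Normalised Lebesgue measure on the circle (total mass `1`). -/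
noncomputable abbrev mu : Measure Circ := haarAddCircle

/-- The coordinate function of the circle: `ze x = e^{2πix}`. -/
noncomputable def ze (x : Circ) : ℂ := (toCircle x : ℂ)

/-- `u` is (a representative of) the Riesz projection `P₊ h`, that is, of the orthogonal projection
of `h` onto `H²`: `u` is the function in `L²` whose `n`-th Fourier coefficient is that of `h` for
`n ≥ 0` and is `0` for `n < 0`. -/
def IsRieszProj (h u : Circ → ℂ) : Prop :=
  MemLp u 2 mu ∧ ∀ n : ℤ, fourierCoeff u n = if 0 ≤ n then fourierCoeff h n else 0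

/-- `f ∈ ST(H^∞)`: `f ∈ L^∞` and there is a constant `C` such that `‖P₊ (f g)‖_∞ ≤ C ‖g‖_∞` for every
analytic polynomial `g`. (`M` is any upper bound of `|g|` on the circle, `u` is `P₊ (f g)`.) -/
def IsST (f : Circ → ℂ) : Prop :=
  MemLp f ⊤ mu ∧ ∃ C : ℝ, ∀ (g : Polynomial ℂ) (M : ℝ), (∀ x, ‖g.eval (ze x)‖ ≤ M) →
    ∃ u : Circ → ℂ, IsRieszProj (fun x => f x * g.eval (ze x)) u ∧ ∀ᵐ x ∂mu, ‖u x‖ ≤ C * M

/-- `H^∞` (boundary values of bounded analytic functions): the functions in `L^∞` whose Fourier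
coefficients of negative index vanish. -/
def IsHInf (f : Circ → ℂ) : Prop := MemLp f ⊤ mu ∧ ∀ n : ℤ, n < 0 → fourierCoeff f n = 0

/-- `X` is a generalized Douglas algebra: it is (a set of representatives, closed under equality
almost everywhere, of) a subalgebra of `L^∞` containing `H^∞`, and `1 / (1 - f) ∈ X` whenever
`f ∈ X` and `‖f‖_∞ < 1`. -/
structure IsGDAlgebra (X : Set (Circ → ℂ)) : Prop where
  memLp : ∀ f ∈ X, MemLp f ⊤ mu
  congr : ∀ f ∈ X, ∀ g : Circ → ℂ, f =ᵐ[mu] g → g ∈ X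
  hInf : ∀ f, IsHInf f → f ∈ X
  add : ∀ f ∈ X, ∀ g ∈ X, (fun x => f x + g x) ∈ X
  smul : ∀ (c : ℂ), ∀ f ∈ X, (fun x => c * f x) ∈ X
  mul : ∀ f ∈ X, ∀ g ∈ X, (fun x => f x * g x) ∈ X
  inv : ∀ f ∈ X, eLpNorm f ⊤ mu < 1 → (fun x => 1 / (1 - f x)) ∈ X

end Pool.Agent.Lib.MP_e9aa5f_an
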