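import Mathlib
import Pool.Agent.Lib.MP_e9aa5f_an.Defs

/-!
The Hardy space `H²`, the Riesz projection as an orthogonal projection, and the corresponding form of
the definition of `ST(H^∞)`.
-/

set_option autoImplicit false

namespace Pool.Agent.Lib.MP_e9aa5f_an

open MeasureTheory AddCircle
open scoped ENNReal

/-- The Hardy space `H²`: the closed linear span in `L²` of the functions `e^{2πinx}`, `n ≥ 0`. -/
noncomputable def hardy : Submodule ℂ (Lp ℂ 2 mu) :=
  (Submodule.span ℂ (Set.range fun n : ℕ => (fourierLp 2 (n : ℤ) : Lp ℂ 2 mu))).topologicalClosure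

noncomputable instance : CompleteSpace hardy :=
  (Submodule.isClosed_topologicalClosure _).completeSpace_coe

/-- The Riesz projection `P₊`: the orthogonal projection of `L²` onto `H²`. -/
noncomputable def Pplus (Φ : Lp ℂ 2 mu) : Lp ℂ 2 mu := hardy.starProjection Φ

/-- `f ∈ ST(H^∞)`, in terms of the orthogonal projection. -/
def IsSTL (f : Circ → ℂ) : Prop :=
  MemLp f ⊤ mu ∧ ∃ C : ℝ, ∀ (g : Polynomial ℂ) (M : ℝ), (∀ x, ‖g.eval (ze x)‖ ≤ M) →
    ∀ Φ : Lp ℂ 2 mu, (Φ =ᵐ[mu] fun x => f x * g.eval (ze x)) → ∀ᵐ x ∂mu, ‖Pplus Φ x‖ ≤ C * M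

end Pool.Agent.Lib.MP_e9aa5f_an
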