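import Mathlib
import Pool.Agent.Lib.MP_e9aa5f_an.Proj

set_option autoImplicit false

namespace Pool.Agent.Lib.MP_e9aa5f_an

open MeasureTheory AddCircle Filter Topology
open scoped ENNReal ComplexConjugate

theorem norm_ze (x : Circ) : ‖ze x‖ = 1 := Circle.norm_coe _

theorem ze_ne (x : Circ) : ze x ≠ 0 := by
  intro h
  have := norm_ze x
  rw [h, norm_zero] at this
  exact zero_ne_one this

theorem fourier_eq (n : ℤ) (x : Circ) : (fourier n x : ℂ) = ze x ^ n := by
  rw [fourier_apply, toCircle_zsmul, ze, Circle.coe_zpow]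

theorem ze_continuous : Continuous ze := by
  have h : ze = fun x => (fourier 1 x : ℂ) := by
    funext x
    rw [fourier_eq, zpow_one]
  rw [h]
  exact (fourier 1).continuous

theorem conj_ze (x : Circ) : conj (ze x) = (ze x)⁻¹ := by
  rw [Complex.inv_def, Complex.normSq_eq_norm_sq, norm_ze]
  simp

theorem ze_sub (x y : Circ) : ze (x - y) = ze x * (ze y)⁻¹ := by
  rw [ze, ze, ze, sub_eq_add_neg, toCircle_add, Circle.coe_mul, toCircle_neg, Circle.coe_inv]

theorem integral_zpow (n : ℤ) : ∫ x, ze x ^ n ∂mu = if n = 0 then 1 else 0 := by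
  have h := fourierCoeff_fourier (T := 1) n
  have h2 := congrFun h 0
  rw [fourierCoeff] at h2
  simp only [neg_zero] at h2
  have h3 : ∀ t : Circ, fourier 0 t • ((fourier n : C(Circ, ℂ)) t) = ze t ^ n := by
    intro t
    rw [fourier_zero, one_smul, fourier_eq]
  simp_rw [h3] at h2
  rw [h2]
  by_cases hn : n = 0
  · subst hn; simp
  · rw [if_neg hn, Pi.single_eq_of_ne (Ne.symm hn)]

theorem coeff_eq (h : Circ → ℂ) (n : ℤ) :
    fourierCoeff h n = ∫ x, h x * ze x ^ (-n) ∂mu := by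
  rw [fourierCoeff]
  refine integral_congr_ae (Eventually.of_forall fun t => ?_)
  simp only
  rw [fourier_eq, smul_eq_mul, mul_comm]

/-- All negative Fourier coefficients vanish. -/
def Anal (h : Circ → ℂ) : Prop := ∀ n : ℕ, ∫ x, h x * ze x ^ (n + 1) ∂mu = 0

theorem anal_coeff {h : Circ → ℂ} (hh : Anal h) (n : ℤ) (hn : n < 0) : fourierCoeff h n = 0 := by
  obtain ⟨m, hm⟩ : ∃ m : ℕ, -n = ((m + 1 : ℕ) : ℤ) := ⟨(-n - 1).toNat, by omega⟩
  rw [coeff_eq, hm]
  simp_rw [zpow_natCast]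
  exact hh m

theorem anal_of_coeff {h : Circ → ℂ} (hh : ∀ n : ℤ, n < 0 → fourierCoeff h n = 0) : Anal h := by
  intro n
  have := hh (-((n + 1 : ℕ) : ℤ)) (by omega)
  rw [coeff_eq, neg_neg] at this
  simp_rw [zpow_natCast] at this
  exact this

theorem Anal.congr {h g : Circ → ℂ} (hh : Anal h) (hg : h =ᵐ[mu] g) : Anal g := by
  intro n
  rw [← hh n]
  refine integral_congr_ae ?_
  filter_upwards [hg] with x hx
  rw [hx]

/-- multiplication of an integrable function by a bounded one -/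
theorem Integrable_mul_bdd {h g : Circ → ℂ} (hh : Integrable h mu) (hg : AEStronglyMeasurable g mu)
    (C : ℝ) (hC : ∀ᵐ x ∂mu, ‖g x‖ ≤ C) : Integrable (fun x => h x * g x) mu := by
  refine (hh.norm.mul_const C).mono' (hh.1.mul hg) ?_
  filter_upwards [hC] with x hx
  rw [norm_mul]
  exact mul_le_mul_of_nonneg_left hx (norm_nonneg _)

theorem ze_pow_meas (n : ℕ) : AEStronglyMeasurable (fun x => ze x ^ n) mu :=
  (ze_continuous.pow n).aestronglyMeasurable

theorem integrable_mul_pow {h : Circ → ℂ} (hh : Integrable h mu) (n : ℕ) :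
    Integrable (fun x => h x * ze x ^ n) mu :=
  Integrable_mul_bdd hh (ze_pow_meas n) 1
    (Eventually.of_forall fun x => by rw [norm_pow, norm_ze, one_pow])

theorem tendsto_integral_mul {h : ℕ → Circ → ℂ} {h0 g : Circ → ℂ}
    (hh : ∀ n, Integrable (h n) mu) (hh0 : Integrable h0 mu)
    (hlim : Tendsto (fun n => ∫ x, ‖h n x - h0 x‖ ∂mu) atTop (𝓝 0))
    (hg : AEStronglyMeasurable g mu) (C : ℝ) (hC : ∀ᵐ x ∂mu, ‖g x‖ ≤ C) :
    Tendsto (fun n => ∫ x, h n x * g x ∂mu) atTop (𝓝 (∫ x, h0 x * g x ∂mu)) := by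
  rw [tendsto_iff_norm_sub_tendsto_zero]
  have h1 : Tendsto (fun n => C * ∫ x, ‖h n x - h0 x‖ ∂mu) atTop (𝓝 0) := by
    have := hlim.const_mul C
    rwa [mul_zero] at this
  refine squeeze_zero (fun n => norm_nonneg _) (fun n => ?_) h1
  rw [← integral_sub (Integrable_mul_bdd (hh n) hg C hC) (Integrable_mul_bdd hh0 hg C hC),
    ← integral_const_mul]
  refine norm_integral_le_of_norm_le (((hh n).sub hh0).norm.const_mul C) ?_
  filter_upwards [hC] with x hx
  rw [← sub_mul, norm_mul, mul_comm]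
  exact mul_le_mul_of_nonneg_right hx (norm_nonneg _)

theorem Anal.of_tendsto {h : ℕ → Circ → ℂ} {h0 : Circ → ℂ}
    (hh : ∀ n, Integrable (h n) mu) (hh0 : Integrable h0 mu) (ha : ∀ n, Anal (h n))
    (hlim : Tendsto (fun n => ∫ x, ‖h n x - h0 x‖ ∂mu) atTop (𝓝 0)) : Anal h0 := by
  intro m
  have h1 := tendsto_integral_mul hh hh0 hlim (ze_pow_meas (m + 1)) 1
    (Eventually.of_forall fun x => by rw [norm_pow, norm_ze, one_pow])
  have h2 : (fun n => ∫ x, h n x * ze x ^ (m + 1) ∂mu) = fun _ => 0 := funext fun n => ha n m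
  rw [h2] at h1
  exact (tendsto_nhds_unique tendsto_const_nhds h1).symm

end Pool.Agent.Lib.MP_e9aa5f_an
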