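import Mathlib
import Pool.Agent.Lib.MP_e9aa5f_an.Basic

set_option autoImplicit false

namespace Pool.Agent.Lib.MP_e9aa5f_an

open MeasureTheory AddCircle Filter Topology Finset
open scoped ENNReal ComplexConjugate

/-- Fejér kernel -/
noncomputable def ker (N : ℕ) (y : Circ) : ℝ := ((N : ℝ) + 1)⁻¹ * ‖∑ j ∈ range (N + 1), ze y ^ j‖ ^ 2

/-- Fejér mean -/
noncomputable def fej (N : ℕ) (h : Circ → ℂ) (x : Circ) : ℂ :=
  ((N : ℂ) + 1)⁻¹ * ∑ j ∈ range (N + 1), ∑ k ∈ range (N + 1),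
    fourierCoeff h ((j : ℤ) - k) * ze x ^ ((j : ℤ) - k)

theorem ker_nonneg (N : ℕ) (y : Circ) : 0 ≤ ker N y := by
  unfold ker; positivity

theorem ker_continuous (N : ℕ) : Continuous (ker N) := by
  unfold ker
  exact continuous_const.mul ((continuous_finsetSum _ fun j _ => ze_continuous.pow j).norm.pow 2)

theorem ker_complex (N : ℕ) (y : Circ) : ((ker N y : ℝ) : ℂ) = ((N : ℂ) + 1)⁻¹ *
    ∑ j ∈ range (N + 1), ∑ k ∈ range (N + 1), ze y ^ ((j : ℤ) - k) := by
  have h1 : ((‖∑ j ∈ range (N + 1), ze y ^ j‖ ^ 2 : ℝ) : ℂ)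
      = (∑ j ∈ range (N + 1), ze y ^ j) * conj (∑ j ∈ range (N + 1), ze y ^ j) := by
    rw [RCLike.mul_conj]; push_cast; rfl
  unfold ker
  push_cast at h1 ⊢
  rw [h1, map_sum, sum_mul_sum]
  congr 1
  refine sum_congr rfl fun j _ => sum_congr rfl fun k _ => ?_
  rw [map_pow, conj_ze, zpow_sub₀ (ze_ne y), zpow_natCast, zpow_natCast, inv_pow, div_eq_mul_inv]

theorem ker_le (N : ℕ) (y : Circ) : ker N y ≤ N + 1 := by
  unfold ker
  have h1 : ‖∑ j ∈ range (N + 1), ze y ^ j‖ ≤ (N : ℝ) + 1 := by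
    refine (norm_sum_le _ _).trans ?_
    simp [norm_ze]
  have h2 : ‖∑ j ∈ range (N + 1), ze y ^ j‖ ^ 2 ≤ ((N : ℝ) + 1) ^ 2 := by gcongr
  calc ((N : ℝ) + 1)⁻¹ * ‖∑ j ∈ range (N + 1), ze y ^ j‖ ^ 2 ≤ ((N : ℝ) + 1)⁻¹ * ((N : ℝ) + 1) ^ 2 := by
        gcongr
    _ = (N : ℝ) + 1 := by field_simp

theorem ker_sub_meas (N : ℕ) (x : Circ) :
    AEStronglyMeasurable (fun t => ((ker N (x - t) : ℝ) : ℂ)) mu :=
  (Complex.continuous_ofReal.comp ((ker_continuous N).comp
    (continuous_const.sub continuous_id))).aestronglyMeasurable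

theorem fej_eq (N : ℕ) (h : Circ → ℂ) (hh : Integrable h mu) (x : Circ) :
    fej N h x = ∫ t, h t * ((ker N (x - t) : ℝ) : ℂ) ∂mu := by
  have h1 : ∀ t : Circ, h t * ((ker N (x - t) : ℝ) : ℂ)
      = ((N : ℂ) + 1)⁻¹ * ∑ j ∈ range (N + 1), ∑ k ∈ range (N + 1),
        (h t * ze t ^ (-((j : ℤ) - k))) * ze x ^ ((j : ℤ) - k) := by
    intro t
    rw [ker_complex, mul_left_comm, mul_sum]
    congr 1
    refine sum_congr rfl fun j _ => ?_
    rw [mul_sum]
    refine sum_congr rfl fun k _ => ?_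
    rw [ze_sub, mul_zpow, zpow_neg, inv_zpow]
    ring
  have hint : ∀ n : ℤ, Integrable (fun t => h t * ze t ^ n) mu := by
    intro n
    refine Integrable_mul_bdd hh ?_ 1 (Eventually.of_forall fun t => ?_)
    · exact (ze_continuous.zpow₀ n fun t => Or.inl (ze_ne t)).aestronglyMeasurable
    · rw [norm_zpow, norm_ze, one_zpow]
  simp_rw [h1]
  rw [integral_const_mul, integral_finsetSum]
  · rw [fej]
    congr 1
    refine sum_congr rfl fun j _ => ?_
    rw [integral_finsetSum]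
    · refine sum_congr rfl fun k _ => ?_
      rw [integral_mul_const, coeff_eq]
    · intro k _
      exact (hint _).mul_const _
  · intro j _
    refine integrable_finsetSum _ fun k _ => ?_
    exact (hint _).mul_const _

theorem integral_ker (N : ℕ) (x : Circ) : ∫ t, ((ker N (x - t) : ℝ) : ℂ) ∂mu = 1 := by
  have h1 := fej_eq N (fun _ => 1) (integrable_const 1) x
  simp only [one_mul] at h1
  rw [← h1, fej]
  have h2 : ∀ n : ℤ, fourierCoeff (fun _ : Circ => (1 : ℂ)) n = if n = 0 then 1 else 0 := by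
    intro n
    rw [coeff_eq]
    simp only [one_mul]
    rw [integral_zpow]
    simp
  simp_rw [h2]
  have h3 : ∀ j ∈ range (N + 1), ∑ k ∈ range (N + 1),
      (if (j : ℤ) - k = 0 then (1 : ℂ) else 0) * ze x ^ ((j : ℤ) - k) = 1 := by
    intro j hj
    rw [sum_eq_single j]
    · simp
    · intro k _ hk
      have : (j : ℤ) - k ≠ 0 := by omega
      rw [if_neg this, zero_mul]
    · intro h; exact absurd hj h
  rw [sum_congr rfl h3, sum_const, card_range, nsmul_eq_mul, mul_one]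
  push_cast
  have : (N : ℂ) + 1 ≠ 0 := by exact_mod_cast Nat.succ_ne_zero N
  field_simp

theorem integral_ker_real (N : ℕ) (x : Circ) : ∫ t, ker N (x - t) ∂mu = 1 := by
  have h := integral_ker N x
  have h2 : ∫ t, ((ker N (x - t) : ℝ) : ℂ) ∂mu = ((∫ t, ker N (x - t) ∂mu : ℝ) : ℂ) := integral_ofReal
  rw [h2] at h
  exact_mod_cast h

theorem ker_integrable (N : ℕ) (x : Circ) : Integrable (fun t => ker N (x - t)) mu := by
  have h := integral_ker_real N x
  by_contra hcon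
  rw [integral_undef hcon] at h
  exact zero_ne_one h

theorem norm_fej_le (N : ℕ) (h : Circ → ℂ) (hh : Integrable h mu) (C : ℝ)
    (hC : ∀ᵐ t ∂mu, ‖h t‖ ≤ C) (x : Circ) : ‖fej N h x‖ ≤ C := by
  rw [fej_eq N h hh x]
  calc ‖∫ t, h t * ((ker N (x - t) : ℝ) : ℂ) ∂mu‖ ≤ ∫ t, C * ker N (x - t) ∂mu := by
        refine norm_integral_le_of_norm_le ((ker_integrable N x).const_mul C) ?_
        filter_upwards [hC] with t ht
        rw [norm_mul, Complex.norm_real, Real.norm_of_nonneg (ker_nonneg _ _)]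
        exact mul_le_mul_of_nonneg_right ht (ker_nonneg _ _)
    _ = C := by rw [integral_const_mul, integral_ker_real, mul_one]

theorem re_fej_ge (N : ℕ) (h : Circ → ℂ) (hh : Integrable h mu) (c : ℝ)
    (hc : ∀ᵐ t ∂mu, c ≤ (h t).re) (x : Circ) : c ≤ (fej N h x).re := by
  rw [fej_eq N h hh x]
  have hint : Integrable (fun t => h t * ((ker N (x - t) : ℝ) : ℂ)) mu :=
    Integrable_mul_bdd hh (ker_sub_meas N x) (N + 1) (Eventually.of_forall fun t => by
      rw [Complex.norm_real, Real.norm_of_nonneg (ker_nonneg _ _)]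
      exact ker_le N _)
  have h1 : (∫ t, h t * ((ker N (x - t) : ℝ) : ℂ) ∂mu).re
      = ∫ t, (h t).re * ker N (x - t) ∂mu := by
    have h2 := integral_re hint
    have h3 : (∫ t, h t * ((ker N (x - t) : ℝ) : ℂ) ∂mu).re
      = ∫ t, (h t * ((ker N (x - t) : ℝ) : ℂ)).re ∂mu := h2.symm
    rw [h3]
    refine integral_congr_ae (Eventually.of_forall fun t => ?_)
    simp only
    rw [Complex.re_mul_ofReal]
  rw [h1]
  calc c = ∫ t, c * ker N (x - t) ∂mu := by rw [integral_const_mul, integral_ker_real, mul_one]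
    _ ≤ ∫ t, (h t).re * ker N (x - t) ∂mu := by
        refine integral_mono_ae ((ker_integrable N x).const_mul c) ?_ ?_
        · have := hint.re
          refine this.congr (Eventually.of_forall fun t => ?_)
          simp only
          exact Complex.re_mul_ofReal _ _
        · filter_upwards [hc] with t ht
          exact mul_le_mul_of_nonneg_right ht (ker_nonneg _ _)

/-- counting identity -/
theorem double_sum {E : Type*} [AddCommGroup E] (g : ℤ → E) (N : ℕ) :
    ∑ j ∈ range (N + 1), ∑ k ∈ range (N + 1), g ((j : ℤ) - k)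
      = ∑ m ∈ range (N + 1), ∑ n ∈ Icc (-(m : ℤ)) m, g n := by
  induction N with
  | zero => simp
  | succ N ih =>
    rw [sum_range_succ (fun m : ℕ => ∑ n ∈ Icc (-(m : ℤ)) m, g n) (N + 1), ← ih]
    have h1 : ∀ j ∈ range (N + 1), ∑ k ∈ range (N + 1 + 1), g ((j : ℤ) - k)
        = ∑ k ∈ range (N + 1), g ((j : ℤ) - k) + g ((j : ℤ) - (N + 1 : ℕ)) := by
      intro j _
      rw [sum_range_succ]
    rw [sum_range_succ, sum_congr rfl h1, sum_add_distrib, add_assoc]
    congr 1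
    have h2 : Icc (-((N + 1 : ℕ) : ℤ)) ((N + 1 : ℕ) : ℤ)
        = (range (N + 1)).image (fun j : ℕ => (j : ℤ) - (N + 1 : ℕ))
          ∪ (range (N + 1 + 1)).image (fun k : ℕ => ((N + 1 : ℕ) : ℤ) - k) := by
      ext n
      simp only [mem_Icc, mem_union, mem_image, mem_range]
      constructor
      · rintro ⟨h3, h4⟩
        by_cases hn : n < 0
        · left
          exact ⟨(n + (N + 1 : ℕ)).toNat, by omega, by omega⟩
        · right
          exact ⟨((N + 1 : ℕ) - n).toNat, by omega, by omega⟩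
      · rintro (⟨j, hj, rfl⟩ | ⟨k, hk, rfl⟩)
        · constructor <;> omega
        · constructor <;> omega
    rw [h2, sum_union]
    · rw [sum_image, sum_image]
      · intro a _ b _ hab
        simp only at hab
        omega
      · intro a _ b _ hab
        simp only at hab
        omega
    · rw [Finset.disjoint_left]
      intro n hn hn'
      simp only [mem_image, mem_range] at hn hn'
      obtain ⟨j, hj, hj'⟩ := hn
      obtain ⟨k, hk, hk'⟩ := hn'
      omega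

theorem fejL_tendsto (h : Lp ℂ 2 mu) :
    Tendsto (fun N : ℕ => ((N : ℝ) + 1)⁻¹ • ∑ j ∈ range (N + 1), ∑ k ∈ range (N + 1),
      fourierCoeff h ((j : ℤ) - k) • (fourierLp 2 ((j : ℤ) - k) : Lp ℂ 2 mu)) atTop (𝓝 h) := by
  have h1 := hasSum_fourier_series_L2 (T := 1) h
  have h2 : Tendsto (fun m : ℕ => ∑ n ∈ Icc (-(m : ℤ)) m,
      fourierCoeff h n • (fourierLp 2 n : Lp ℂ 2 mu)) atTop (𝓝 h) := by
    refine h1.comp ?_
    apply tendsto_atTop_finset_of_monotone
    · intro a b hab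
      apply Icc_subset_Icc <;> omega
    · intro n
      exact ⟨n.natAbs, by rw [mem_Icc]; omega⟩
  have h3 := h2.cesaro_smul
  have h4 := h3.comp (tendsto_add_atTop_nat 1)
  refine h4.congr fun N => ?_
  simp only [Function.comp]
  rw [double_sum (fun n : ℤ => fourierCoeff h n • (fourierLp 2 n : Lp ℂ 2 mu)) N]
  push_cast
  rfl

theorem fejL_coe (h : Lp ℂ 2 mu) (N : ℕ) :
    (((N : ℝ) + 1)⁻¹ • ∑ j ∈ range (N + 1), ∑ k ∈ range (N + 1),
      fourierCoeff h ((j : ℤ) - k) • (fourierLp 2 ((j : ℤ) - k) : Lp ℂ 2 mu) : Lp ℂ 2 mu)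
      =ᵐ[mu] fej N h := by
  have h0 : (((N : ℝ) + 1)⁻¹ • ∑ j ∈ range (N + 1), ∑ k ∈ range (N + 1),
      fourierCoeff h ((j : ℤ) - k) • (fourierLp 2 ((j : ℤ) - k) : Lp ℂ 2 mu) : Lp ℂ 2 mu)
      = ContinuousMap.toLp (E := ℂ) 2 mu ℂ ((((N : ℂ) + 1)⁻¹ : ℂ) • ∑ j ∈ range (N + 1),
        ∑ k ∈ range (N + 1), fourierCoeff h ((j : ℤ) - k) • (fourier ((j : ℤ) - k) : C(Circ, ℂ))) := by
    simp only [map_sum, map_smul]
    have : (((N : ℂ) + 1)⁻¹ : ℂ) = ((((N : ℝ) + 1)⁻¹ : ℝ) : ℂ) := by push_cast; rfl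
    rw [this]
    exact (RCLike.real_smul_eq_coe_smul (K := ℂ) _ _)
  rw [h0]
  refine (ContinuousMap.coeFn_toLp mu _).trans (Eventually.of_forall fun x => ?_)
  rw [fej, ContinuousMap.smul_apply, ContinuousMap.sum_apply, smul_eq_mul]
  congr 1
  refine sum_congr rfl fun j _ => ?_
  rw [ContinuousMap.sum_apply]
  refine sum_congr rfl fun k _ => ?_
  rw [ContinuousMap.smul_apply, fourier_eq, smul_eq_mul]

theorem fej_continuous (N : ℕ) (h : Circ → ℂ) : Continuous (fej N h) := by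
  unfold fej
  refine continuous_const.mul (continuous_finsetSum _ fun j _ => continuous_finsetSum _ fun k _ => ?_)
  exact continuous_const.mul (ze_continuous.zpow₀ _ fun t => Or.inl (ze_ne t))

theorem fej_congr (N : ℕ) {h g : Circ → ℂ} (hg : h =ᵐ[mu] g) (x : Circ) : fej N h x = fej N g x := by
  rw [fej, fej, fourierCoeff_congr_ae hg]

/-- `L¹` convergence of the Fejér means of an `L²` function -/
theorem fej_tendsto (h : Circ → ℂ) (hh : MemLp h 2 mu) :
    Tendsto (fun N => ∫ x, ‖fej N h x - h x‖ ∂mu) atTop (𝓝 0) := by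
  have h1 := fejL_tendsto hh.toLp
  rw [tendsto_iff_norm_sub_tendsto_zero] at h1
  refine squeeze_zero (fun N => integral_nonneg fun x => norm_nonneg _) (fun N => ?_) h1
  set G : Lp ℂ 2 mu := (((N : ℝ) + 1)⁻¹ • ∑ j ∈ range (N + 1), ∑ k ∈ range (N + 1),
      fourierCoeff hh.toLp ((j : ℤ) - k) • (fourierLp 2 ((j : ℤ) - k) : Lp ℂ 2 mu) : Lp ℂ 2 mu)
    with hG
  have h2 : (G - hh.toLp : Lp ℂ 2 mu) =ᵐ[mu] fun x => fej N h x - h x := by
    filter_upwards [Lp.coeFn_sub G hh.toLp, fejL_coe hh.toLp N, hh.coeFn_toLp] with x e1 e2 e3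
    rw [e1, Pi.sub_apply, e2, e3, fej_congr N hh.coeFn_toLp]
  have h3 : ∫ x, ‖fej N h x - h x‖ ∂mu = ∫ x, ‖(G - hh.toLp : Lp ℂ 2 mu) x‖ ∂mu := by
    refine integral_congr_ae ?_
    filter_upwards [h2] with x hx
    rw [hx]
  rw [h3]
  have h4 : eLpNorm (G - hh.toLp : Lp ℂ 2 mu) 1 mu ≤ eLpNorm (G - hh.toLp : Lp ℂ 2 mu) 2 mu :=
    eLpNorm_le_eLpNorm_of_exponent_le (by norm_num) (Lp.aestronglyMeasurable _)
  have hL2 : MemLp (G - hh.toLp : Lp ℂ 2 mu) 2 mu := Lp.memLp _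
  have hL1 : MemLp (G - hh.toLp : Lp ℂ 2 mu) 1 mu := hL2.mono_exponent (by norm_num)
  rw [integral_norm_eq_lintegral_enorm (Lp.aestronglyMeasurable _), ← eLpNorm_one_eq_lintegral_enorm,
    Lp.norm_def]
  exact ENNReal.toReal_mono hL2.2.ne h4

end Pool.Agent.Lib.MP_e9aa5f_an
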