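import Mathlib
import Pool.Agent.Lib.MP_e9aa5f_an.Fejer

set_option autoImplicit false

namespace Pool.Agent.Lib.MP_e9aa5f_an

open MeasureTheory AddCircle Filter Topology Finset
open scoped ENNReal ComplexConjugate

/-- essentially bounded by `M` -/
def Bd (h : Circ → ℂ) (M : ℝ) : Prop := AEStronglyMeasurable h mu ∧ ∀ᵐ x ∂mu, ‖h x‖ ≤ M

theorem Bd.memLp {h : Circ → ℂ} {M : ℝ} (hh : Bd h M) : MemLp h ⊤ mu :=
  memLp_top_of_bound hh.1 M hh.2

theorem Bd.memLp2 {h : Circ → ℂ} {M : ℝ} (hh : Bd h M) : MemLp h 2 mu :=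
  hh.memLp.mono_exponent le_top

theorem Bd.integrable {h : Circ → ℂ} {M : ℝ} (hh : Bd h M) : Integrable h mu :=
  hh.memLp.integrable le_top

theorem Bd.nonneg {h : Circ → ℂ} {M : ℝ} (hh : Bd h M) : 0 ≤ M := by
  obtain ⟨x, hx⟩ := hh.2.exists
  exact (norm_nonneg _).trans hx

theorem exists_Bd {h : Circ → ℂ} (hh : MemLp h ⊤ mu) : Bd h (eLpNorm h ⊤ mu).toReal := by
  refine ⟨hh.1, ?_⟩
  have h1 : eLpNorm h ⊤ mu = eLpNormEssSup h mu := eLpNorm_exponent_top
  have h2 : eLpNormEssSup h mu ≠ ⊤ := by rw [← h1]; exact hh.2.ne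
  filter_upwards [ae_le_eLpNormEssSup (f := h) (μ := mu)] with x hx
  rw [h1]
  have := ENNReal.toReal_mono h2 hx
  simpa using this

theorem Bd.add {h g : Circ → ℂ} {M M' : ℝ} (hh : Bd h M) (hg : Bd g M') :
    Bd (fun x => h x + g x) (M + M') := by
  refine ⟨hh.1.add hg.1, ?_⟩
  filter_upwards [hh.2, hg.2] with x h1 h2
  exact (norm_add_le _ _).trans (add_le_add h1 h2)

theorem Bd.sub {h g : Circ → ℂ} {M M' : ℝ} (hh : Bd h M) (hg : Bd g M') :
    Bd (fun x => h x - g x) (M + M') := by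
  refine ⟨hh.1.sub hg.1, ?_⟩
  filter_upwards [hh.2, hg.2] with x h1 h2
  exact (norm_sub_le _ _).trans (add_le_add h1 h2)

theorem Bd.mul {h g : Circ → ℂ} {M M' : ℝ} (hh : Bd h M) (hg : Bd g M') :
    Bd (fun x => h x * g x) (M * M') := by
  refine ⟨hh.1.mul hg.1, ?_⟩
  filter_upwards [hh.2, hg.2] with x h1 h2
  rw [norm_mul]
  exact mul_le_mul h1 h2 (norm_nonneg _) ((norm_nonneg _).trans h1)

theorem Bd.const (c : ℂ) : Bd (fun _ => c) ‖c‖ := ⟨aestronglyMeasurable_const, by simp⟩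

theorem Bd.of_continuous {h : Circ → ℂ} (hh : Continuous h) {M : ℝ} (hM : ∀ x, ‖h x‖ ≤ M) : Bd h M :=
  ⟨hh.aestronglyMeasurable, Eventually.of_forall hM⟩

theorem Bd.mono {h : Circ → ℂ} {M M' : ℝ} (hh : Bd h M) (hM : M ≤ M') : Bd h M' :=
  ⟨hh.1, hh.2.mono fun _ hx => hx.trans hM⟩

theorem Bd.pow_ze (n : ℕ) : Bd (fun x => ze x ^ n) 1 :=
  Bd.of_continuous (ze_continuous.pow n) fun x => by
    change ‖ze x ^ n‖ ≤ 1
    rw [norm_pow, norm_ze, one_pow]

/-! ### analytic functions -/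

theorem Anal.add {h g : Circ → ℂ} (hh : Anal h) (hg : Anal g) (ih : Integrable h mu)
    (ig : Integrable g mu) : Anal (fun x => h x + g x) := by
  intro n
  have h1 : ∀ x, (h x + g x) * ze x ^ (n + 1) = h x * ze x ^ (n + 1) + g x * ze x ^ (n + 1) :=
    fun x => by ring
  simp_rw [h1]
  rw [integral_add (integrable_mul_pow ih _) (integrable_mul_pow ig _), hh n, hg n, add_zero]

theorem Anal.const_mul {h : Circ → ℂ} (hh : Anal h) (c : ℂ) : Anal (fun x => c * h x) := by
  intro n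
  simp_rw [mul_assoc]
  rw [integral_const_mul, hh n, mul_zero]

theorem Anal.const (c : ℂ) : Anal (fun _ => c) := by
  intro n
  rw [integral_const_mul]
  have := integral_zpow ((n + 1 : ℕ) : ℤ)
  simp_rw [zpow_natCast] at this
  rw [this, if_neg (by omega), mul_zero]

theorem Anal.mul_pow {h : Circ → ℂ} (hh : Anal h) (m : ℕ) : Anal (fun x => h x * ze x ^ m) := by
  intro n
  have h1 : ∀ x, h x * ze x ^ m * ze x ^ (n + 1) = h x * ze x ^ (m + n + 1) := fun x => by ring
  simp_rw [h1]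
  exact hh (m + n)

theorem Anal.sum {ι : Type*} (s : Finset ι) (h : ι → Circ → ℂ) (hh : ∀ i ∈ s, Anal (h i))
    (ih : ∀ i ∈ s, Integrable (h i) mu) : Anal (fun x => ∑ i ∈ s, h i x) := by
  intro n
  simp_rw [sum_mul]
  rw [integral_finsetSum _ fun i hi => integrable_mul_pow (ih i hi) _]
  exact sum_eq_zero fun i hi => hh i hi n

theorem fej_anal_mul (N : ℕ) {h1 h2 : Circ → ℂ} (a1 : Anal h1) (a2 : Anal h2)
    (i2 : Integrable h2 mu) : Anal (fun x => fej N h1 x * h2 x) := by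
  have h3 : (fun x => fej N h1 x * h2 x) = fun x => ((N : ℂ) + 1)⁻¹ *
      ∑ j ∈ range (N + 1), ∑ k ∈ range (N + 1),
        (if (j : ℤ) - k < 0 then 0 else fourierCoeff h1 ((j : ℤ) - k) * (h2 x * ze x ^ (j - k))) := by
    funext x
    rw [fej, mul_assoc, sum_mul]
    congr 1
    refine sum_congr rfl fun j _ => ?_
    rw [sum_mul]
    refine sum_congr rfl fun k _ => ?_
    by_cases hjk : (j : ℤ) - k < 0
    · rw [if_pos hjk, anal_coeff a1 _ hjk, zero_mul, zero_mul]
    · rw [if_neg hjk]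
      have : (j : ℤ) - k = ((j - k : ℕ) : ℤ) := by omega
      rw [this, zpow_natCast]
      ring
  rw [h3]
  refine Anal.const_mul (Anal.sum _ _ (fun j _ => Anal.sum _ _ (fun k _ => ?_) fun k _ => ?_)
    fun j _ => integrable_finsetSum _ fun k _ => ?_) _
  · by_cases hjk : (j : ℤ) - k < 0
    · simp only [if_pos hjk]; exact Anal.const 0
    · simp only [if_neg hjk]; exact (a2.mul_pow _).const_mul _
  · by_cases hjk : (j : ℤ) - k < 0
    · simp only [if_pos hjk]; exact integrable_const 0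
    · simp only [if_neg hjk]; exact (integrable_mul_pow i2 _).const_mul _
  · by_cases hjk : (j : ℤ) - k < 0
    · simp only [if_pos hjk]; exact integrable_const 0
    · simp only [if_neg hjk]; exact (integrable_mul_pow i2 _).const_mul _

theorem fej_bdd (N : ℕ) (h : Circ → ℂ) : ∃ M, ∀ x, ‖fej N h x‖ ≤ M := by
  obtain ⟨M, hM⟩ := isCompact_univ.exists_bound_of_continuousOn (fej_continuous N h).continuousOn
  exact ⟨M, fun x => hM x (Set.mem_univ x)⟩

theorem Anal.mul {h1 h2 : Circ → ℂ} (a1 : Anal h1) (a2 : Anal h2) (m1 : MemLp h1 2 mu)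
    {M : ℝ} (b2 : Bd h2 M) : Anal (fun x => h1 x * h2 x) := by
  have i1 : Integrable h1 mu := m1.integrable (by norm_num)
  refine Anal.of_tendsto (h := fun N x => fej N h1 x * h2 x) (fun N => ?_) ?_
    (fun N => fej_anal_mul N a1 a2 b2.integrable) ?_
  · obtain ⟨M', hM'⟩ := fej_bdd N h1
    exact ((Bd.of_continuous (fej_continuous N h1) hM').mul b2).integrable
  · exact Integrable_mul_bdd i1 b2.1 M b2.2
  · have h4 := (fej_tendsto h1 m1).const_mul M
    rw [mul_zero] at h4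
    refine squeeze_zero (fun N => integral_nonneg fun x => norm_nonneg _) (fun N => ?_) h4
    rw [← integral_const_mul]
    refine integral_mono_of_nonneg (Eventually.of_forall fun x => norm_nonneg _) ?_ ?_
    · obtain ⟨M', hM'⟩ := fej_bdd N h1
      exact (((Bd.of_continuous (fej_continuous N h1) hM').integrable.sub i1).norm).const_mul M
    · filter_upwards [b2.2] with x hx
      rw [← sub_mul, norm_mul, mul_comm]
      exact mul_le_mul_of_nonneg_right hx (norm_nonneg _)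

theorem Anal.pow {h : Circ → ℂ} (a : Anal h) {M : ℝ} (b : Bd h M) (n : ℕ) :
    Anal (fun x => h x ^ n) ∧ Bd (fun x => h x ^ n) (M ^ n) := by
  induction n with
  | zero =>
    refine ⟨?_, ?_⟩
    · simp only [pow_zero]; exact Anal.const 1
    · simp only [pow_zero]
      have := Bd.const 1
      rwa [norm_one] at this
  | succ n ih =>
    simp only [pow_succ]
    exact ⟨ih.1.mul a ih.2.memLp2 b, ih.2.mul b⟩

/-- inverses of bounded analytic functions with positive real part -/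
theorem Anal.inv_bdd {Q : Circ → ℂ} (a : Anal Q) {M : ℝ} (b : Bd Q M) (c : ℝ) (hc : 0 < c)
    (hre : ∀ᵐ x ∂mu, c ≤ (Q x).re) : Anal (fun x => (Q x)⁻¹) ∧ Bd (fun x => (Q x)⁻¹) c⁻¹ := by
  have hb : Bd (fun x => (Q x)⁻¹) c⁻¹ := by
    refine ⟨b.1.aemeasurable.inv.aestronglyMeasurable, ?_⟩
    filter_upwards [hre] with x hx
    rw [norm_inv]
    exact inv_anti₀ hc (hx.trans (Complex.re_le_norm _))
  refine ⟨?_, hb⟩
  -- `0 < M`
  have hM : 0 < M := by
    obtain ⟨x, hx, hx'⟩ := (b.2.and hre).exists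
    exact lt_of_lt_of_le hc ((hx'.trans (Complex.re_le_norm _)).trans hx)
  have hcM : c ≤ M := by
    obtain ⟨x, hx, hx'⟩ := (b.2.and hre).exists
    exact (hx'.trans (Complex.re_le_norm _)).trans hx
  set t : ℝ := c / M ^ 2 with ht
  have htpos : 0 < t := by positivity
  set R : Circ → ℂ := fun x => 1 + (-(t : ℂ)) * Q x with hR
  have aR : Anal R := (Anal.const 1).add (a.const_mul _) (integrable_const 1) (b.integrable.const_mul _)
  have bR : Bd R (‖(1 : ℂ)‖ + ‖(-(t : ℂ))‖ * M) := (Bd.const 1).add ((Bd.const _).mul b)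
  have hρ : ∀ᵐ x ∂mu, ‖R x‖ ≤ Real.sqrt (1 - c ^ 2 / M ^ 2) := by
    filter_upwards [hre, b.2] with x h1 h2
    apply Real.le_sqrt_of_sq_le
    have h3 : ‖R x‖ ^ 2 = 1 - 2 * t * (Q x).re + t ^ 2 * ‖Q x‖ ^ 2 := by
      rw [← Complex.normSq_eq_norm_sq, ← Complex.normSq_eq_norm_sq, Complex.normSq_apply,
        Complex.normSq_apply, hR]
      simp only [Complex.add_re, Complex.one_re, Complex.mul_re, Complex.neg_re, Complex.ofReal_re,
        Complex.neg_im, Complex.ofReal_im, Complex.add_im, Complex.one_im, Complex.mul_im]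
      ring
    rw [h3]
    have h4 : ‖Q x‖ ^ 2 ≤ M ^ 2 := by gcongr
    have h5 : t ^ 2 * ‖Q x‖ ^ 2 ≤ t ^ 2 * M ^ 2 := by gcongr
    have h6 : 2 * t * c ≤ 2 * t * (Q x).re := by gcongr
    have h7 : t ^ 2 * M ^ 2 = c ^ 2 / M ^ 2 := by rw [ht]; field_simp
    have h8 : 2 * t * c = 2 * (c ^ 2 / M ^ 2) := by rw [ht]; field_simp
    linarith
  set ρ := Real.sqrt (1 - c ^ 2 / M ^ 2) with hρdef
  have hρ1 : ρ < 1 := by
    rw [hρdef, Real.sqrt_lt' one_pos]
    have : 0 < c ^ 2 / M ^ 2 := by positivity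
    linarith
  have hρ0 : 0 ≤ ρ := Real.sqrt_nonneg _
  have ps := fun n => aR.pow bR n
  refine Anal.of_tendsto (h := fun n x => (t : ℂ) * ∑ k ∈ range n, R x ^ k) (fun n => ?_)
    hb.integrable (fun n => ?_) ?_
  · exact (integrable_finsetSum _ fun k _ => (ps k).2.integrable).const_mul _
  · exact (Anal.sum _ _ (fun k _ => (ps k).1) fun k _ => (ps k).2.integrable).const_mul _
  · have h4 : Tendsto (fun n : ℕ => ρ ^ n * c⁻¹) atTop (𝓝 0) := by
      have := (tendsto_pow_atTop_nhds_zero_of_lt_one hρ0 hρ1).mul_const c⁻¹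
      rwa [zero_mul] at this
    refine squeeze_zero (fun N => integral_nonneg fun x => norm_nonneg _) (fun n => ?_) h4
    have h5 : ∫ x : Circ, ρ ^ n * c⁻¹ ∂mu = ρ ^ n * c⁻¹ := by simp
    rw [← h5]
    refine integral_mono_of_nonneg (Eventually.of_forall fun x => norm_nonneg _)
      (integrable_const _) ?_
    filter_upwards [hρ, hb.2, hre] with x h1 h2 h3
    have hQ : Q x ≠ 0 := by
      intro h0
      rw [h0, Complex.zero_re] at h3
      linarith
    have hgeo : (t : ℂ) * Q x * ∑ k ∈ range n, R x ^ k = 1 - R x ^ n := by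
      have h6 := mul_neg_geom_sum (R x) n
      have h7 : 1 - R x = (t : ℂ) * Q x := by rw [hR]; ring
      rw [h7] at h6
      exact h6
    have h8 : (t : ℂ) * ∑ k ∈ range n, R x ^ k - (Q x)⁻¹ = -(R x ^ n * (Q x)⁻¹) := by
      have h9 : (t : ℂ) * ∑ k ∈ range n, R x ^ k = (1 - R x ^ n) * (Q x)⁻¹ := by
        rw [← hgeo]; field_simp
      rw [h9]; ring
    rw [h8, norm_neg, norm_mul, norm_pow]
    exact mul_le_mul (pow_le_pow_left₀ (norm_nonneg _) h1 n) h2 (norm_nonneg _) (by positivity)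

/-- inverses of `H²` functions with positive real part -/
theorem Anal.inv {Q : Circ → ℂ} (a : Anal Q) (m : MemLp Q 2 mu) (c : ℝ) (hc : 0 < c)
    (hre : ∀ᵐ x ∂mu, c ≤ (Q x).re) : Anal (fun x => (Q x)⁻¹) ∧ Bd (fun x => (Q x)⁻¹) c⁻¹ := by
  have hb : Bd (fun x => (Q x)⁻¹) c⁻¹ := by
    refine ⟨m.1.aemeasurable.inv.aestronglyMeasurable, ?_⟩
    filter_upwards [hre] with x hx
    rw [norm_inv]
    exact inv_anti₀ hc (hx.trans (Complex.re_le_norm _))
  refine ⟨?_, hb⟩
  have i : Integrable Q mu := m.integrable (by norm_num)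
  have hN : ∀ N, Anal (fun x => (fej N Q x)⁻¹) ∧ Bd (fun x => (fej N Q x)⁻¹) c⁻¹ := by
    intro N
    obtain ⟨M, hM⟩ := fej_bdd N Q
    have a1 : Anal (fej N Q) := by
      have := fej_anal_mul N a (Anal.const 1) (integrable_const 1)
      simpa using this
    exact a1.inv_bdd (Bd.of_continuous (fej_continuous N Q) hM) c hc
      (Eventually.of_forall fun x => re_fej_ge N Q i c hre x)
  refine Anal.of_tendsto (h := fun N x => (fej N Q x)⁻¹) (fun N => (hN N).2.integrable)
    hb.integrable (fun N => (hN N).1) ?_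
  have h4 := (fej_tendsto Q m).const_mul (c⁻¹ * c⁻¹)
  rw [mul_zero] at h4
  refine squeeze_zero (fun N => integral_nonneg fun x => norm_nonneg _) (fun N => ?_) h4
  rw [← integral_const_mul]
  refine integral_mono_of_nonneg (Eventually.of_forall fun x => norm_nonneg _) ?_ ?_
  · obtain ⟨M', hM'⟩ := fej_bdd N Q
    exact (((Bd.of_continuous (fej_continuous N Q) hM').integrable.sub i).norm).const_mul _
  · filter_upwards [hb.2, hre] with x h1 h3
    have h2 : ‖(fej N Q x)⁻¹‖ ≤ c⁻¹ := by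
      rw [norm_inv]
      exact inv_anti₀ hc ((re_fej_ge N Q i c hre x).trans (Complex.re_le_norm _))
    have hQ : Q x ≠ 0 := by
      intro h0
      rw [h0, Complex.zero_re] at h3
      linarith
    have hF : fej N Q x ≠ 0 := by
      intro h0
      have := re_fej_ge N Q i c hre x
      rw [h0, Complex.zero_re] at this
      linarith
    have h5 : (fej N Q x)⁻¹ - (Q x)⁻¹ = -((fej N Q x)⁻¹ * (Q x)⁻¹ * (fej N Q x - Q x)) := by
      field_simp
      ring
    rw [h5, norm_neg, norm_mul, norm_mul]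
    exact mul_le_mul_of_nonneg_right (mul_le_mul h2 h1 (norm_nonneg _) (by positivity)) (norm_nonneg _)

end Pool.Agent.Lib.MP_e9aa5f_an
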