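import Mathlib
import Pool.Agent.Lib.MP_e9aa5f_an.Hardy

set_option autoImplicit false

namespace Pool.Agent.Lib.MP_e9aa5f_an

open MeasureTheory AddCircle Filter Topology Finset
open scoped ENNReal ComplexConjugate

/-- `1 / (1 - w ζ̄)` -/
noncomputable def kw (w : ℂ) (x : Circ) : ℂ := (1 - w * (ze x)⁻¹)⁻¹

theorem norm_den_le (w : ℂ) (x : Circ) : ‖1 - w * (ze x)⁻¹‖ ≤ 1 + ‖w‖ := by
  refine (norm_sub_le _ _).trans ?_
  rw [norm_one, norm_mul, norm_inv, norm_ze, inv_one, mul_one]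

theorem den_ge (w : ℂ) (x : Circ) : 1 - ‖w‖ ≤ ‖1 - w * (ze x)⁻¹‖ := by
  have h := norm_sub_norm_le (1 : ℂ) (w * (ze x)⁻¹)
  rw [norm_one, norm_mul, norm_inv, norm_ze, inv_one, mul_one] at h
  exact h

theorem den_ne {w : ℂ} (hw : ‖w‖ < 1) (x : Circ) : 1 - w * (ze x)⁻¹ ≠ 0 := by
  intro h
  have := den_ge w x
  rw [h, norm_zero] at this
  linarith

theorem kw_continuous {w : ℂ} (hw : ‖w‖ < 1) : Continuous (kw w) := by
  unfold kw
  exact Continuous.inv₀ (continuous_const.sub (continuous_const.mul (ze_continuous.inv₀ ze_ne)))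
    (den_ne hw)

theorem norm_kw_le {w : ℂ} (hw : ‖w‖ < 1) (x : Circ) : ‖kw w x‖ ≤ (1 - ‖w‖)⁻¹ := by
  rw [kw, norm_inv]
  exact inv_anti₀ (by linarith) (den_ge w x)

theorem kw_bd {w : ℂ} (hw : ‖w‖ < 1) : Bd (kw w) (1 - ‖w‖)⁻¹ :=
  Bd.of_continuous (kw_continuous hw) (norm_kw_le hw)

theorem conj_den (w : ℂ) (x : Circ) : conj (1 - w * (ze x)⁻¹) = 1 - conj w * ze x := by
  rw [map_sub, map_one, map_mul, ← conj_ze, Complex.conj_conj]

/-- `1 / (1 - v ζ)` -/
theorem anal_geom {v : ℂ} (hv : ‖v‖ < 1) :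
    Anal (fun x => (1 - v * ze x)⁻¹) ∧ Bd (fun x => (1 - v * ze x)⁻¹) (1 - ‖v‖)⁻¹ := by
  have h1 : Anal (fun x => 1 - v * ze x) := by
    have h := (Anal.const 1).add (((Anal.const 1).mul_pow 1).const_mul (-v)) (integrable_const 1)
      ((integrable_mul_pow (integrable_const 1) 1).const_mul (-v))
    refine h.congr (Eventually.of_forall fun x => ?_)
    simp only
    ring
  have h2 : Bd (fun x => 1 - v * ze x) (1 + ‖v‖) := by
    refine Bd.of_continuous (continuous_const.sub (continuous_const.mul ze_continuous)) fun x => ?_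
    refine (norm_sub_le _ _).trans ?_
    change ‖(1 : ℂ)‖ + ‖v * ze x‖ ≤ 1 + ‖v‖
    rw [norm_one, norm_mul, norm_ze, mul_one]
  refine h1.inv_bdd h2 (1 - ‖v‖) (by linarith) (Eventually.of_forall fun x => ?_)
  have h3 : (v * ze x).re ≤ ‖v‖ := by
    refine (Complex.re_le_norm _).trans ?_
    rw [norm_mul, norm_ze, mul_one]
  rw [Complex.sub_re, Complex.one_re]
  linarith

theorem integral_geom {v : ℂ} (hv : ‖v‖ < 1) : ∫ x, (1 - v * ze x)⁻¹ ∂mu = 1 := by
  have hb := anal_geom hv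
  have h1 : ∀ x : Circ, (1 - v * ze x)⁻¹ = 1 + v * ((1 - v * ze x)⁻¹ * ze x ^ (0 + 1)) := by
    intro x
    have h2 : 1 - v * ze x ≠ 0 := by
      intro h
      have h3 := norm_sub_norm_le (1 : ℂ) (v * ze x)
      rw [h, norm_one, norm_mul, norm_ze, mul_one, norm_zero] at h3
      linarith
    field_simp
    ring
  rw [integral_congr_ae (Eventually.of_forall h1),
    integral_add (integrable_const _) ((integrable_mul_pow hb.2.integrable _).const_mul _),
    integral_const_mul, hb.1 0]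
  simp

theorem integral_kw {w : ℂ} (hw : ‖w‖ < 1) : ∫ x, kw w x ∂mu = 1 := by
  have h1 : ∀ x : Circ, kw w x = conj ((1 - conj w * ze x)⁻¹) := by
    intro x
    rw [kw, map_inv₀, ← conj_den, Complex.conj_conj]
  simp_rw [h1]
  rw [integral_conj, integral_geom (by rwa [RCLike.norm_conj]), map_one]

/-- Poisson kernel -/
noncomputable def poi (w : ℂ) (x : Circ) : ℝ := (1 - ‖w‖ ^ 2) * (‖1 - w * (ze x)⁻¹‖ ^ 2)⁻¹

theorem poi_eq {w : ℂ} (hw : ‖w‖ < 1) (x : Circ) : ((poi w x : ℝ) : ℂ)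
    = kw w x + conj w * ((1 - conj w * ze x)⁻¹ * ze x ^ (0 + 1)) := by
  have h1 : ((‖1 - w * (ze x)⁻¹‖ ^ 2 : ℝ) : ℂ) = (1 - w * (ze x)⁻¹) * (1 - conj w * ze x) := by
    rw [← conj_den, RCLike.mul_conj]; push_cast; rfl
  have h2 : ((‖w‖ ^ 2 : ℝ) : ℂ) = w * conj w := by
    rw [RCLike.mul_conj]; push_cast; rfl
  have h3 := den_ne hw x
  have h4 : 1 - conj w * ze x ≠ 0 := by
    rw [← conj_den]
    exact (map_ne_zero (starRingEnd ℂ)).mpr h3
  have h5 := ze_ne x
  unfold poi kw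
  rw [Complex.ofReal_mul, Complex.ofReal_inv, h1, Complex.ofReal_sub, h2, Complex.ofReal_one]
  have h6 : ze x - w ≠ 0 := by
    intro h
    apply h3
    rw [sub_eq_zero] at h
    rw [← h]
    field_simp
    ring
  have h7 : 1 - w * (ze x)⁻¹ = (ze x - w) * (ze x)⁻¹ := by field_simp
  rw [h7]
  field_simp
  ring

theorem poi_nonneg {w : ℂ} (hw : ‖w‖ < 1) (x : Circ) : 0 ≤ poi w x := by
  unfold poi
  have : 0 ≤ 1 - ‖w‖ ^ 2 := by nlinarith [norm_nonneg w]
  positivity

theorem poi_continuous {w : ℂ} (hw : ‖w‖ < 1) : Continuous (poi w) := by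
  unfold poi
  refine continuous_const.mul (Continuous.inv₀ ?_ fun x => ?_)
  · exact ((continuous_const.sub (continuous_const.mul (ze_continuous.inv₀ ze_ne))).norm).pow 2
  · exact pow_ne_zero 2 (norm_ne_zero_iff.mpr (den_ne hw x))

theorem integral_mul_poi {w : ℂ} (hw : ‖w‖ < 1) {b : Circ → ℂ} (a : Anal b) (m : MemLp b 2 mu) :
    ∫ x, b x * ((poi w x : ℝ) : ℂ) ∂mu = ∫ x, b x * kw w x ∂mu := by
  have hw' : ‖conj w‖ < 1 := by rwa [RCLike.norm_conj]
  have hg := anal_geom hw'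
  have i : Integrable b mu := m.integrable (by norm_num)
  have h1 : ∀ x : Circ, b x * ((poi w x : ℝ) : ℂ)
      = b x * kw w x + conj w * ((b x * (1 - conj w * ze x)⁻¹) * ze x ^ (0 + 1)) := by
    intro x
    rw [poi_eq hw]; ring
  simp_rw [h1]
  rw [integral_add (Integrable_mul_bdd i (kw_bd hw).1 _ (kw_bd hw).2)
    ((integrable_mul_pow (Integrable_mul_bdd i hg.2.1 _ hg.2.2) _).const_mul _),
    integral_const_mul, (a.mul hg.1 m hg.2) 0, mul_zero, add_zero]

theorem integral_poi {w : ℂ} (hw : ‖w‖ < 1) : ∫ x, poi w x ∂mu = 1 := by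
  have h := integral_mul_poi hw (Anal.const 1) (Bd.const 1).memLp2
  simp only [one_mul] at h
  rw [integral_kw hw] at h
  have h2 : ∫ t, ((poi w t : ℝ) : ℂ) ∂mu = ((∫ t, poi w t ∂mu : ℝ) : ℂ) := integral_ofReal
  rw [h2] at h
  exact_mod_cast h

theorem poi_integrable {w : ℂ} (hw : ‖w‖ < 1) : Integrable (poi w) mu := by
  have h := integral_poi hw
  by_contra hcon
  rw [integral_undef hcon] at h
  exact zero_ne_one h

/-- the Cauchy integral of a bounded analytic function is bounded -/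
theorem cauchy_bound {w : ℂ} (hw : ‖w‖ < 1) {b : Circ → ℂ} (a : Anal b) {M : ℝ} (bb : Bd b M) :
    ‖∫ x, b x * kw w x ∂mu‖ ≤ M := by
  rw [← integral_mul_poi hw a bb.memLp2]
  calc ‖∫ x, b x * ((poi w x : ℝ) : ℂ) ∂mu‖ ≤ ∫ x, M * poi w x ∂mu := by
        refine norm_integral_le_of_norm_le ((poi_integrable hw).const_mul M) ?_
        filter_upwards [bb.2] with t ht
        rw [norm_mul, Complex.norm_real, Real.norm_of_nonneg (poi_nonneg hw _)]
        exact mul_le_mul_of_nonneg_right ht (poi_nonneg hw _)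
    _ = M := by rw [integral_const_mul, integral_poi hw, mul_one]

/-! ### from interior bounds to boundary bounds -/

theorem coeff_geom {v : ℂ} (hv : ‖v‖ < 1) (m : ℕ) :
    ∫ x, (1 - v * ze x)⁻¹ * ze x ^ (-(m : ℤ)) ∂mu = v ^ m := by
  have hb := anal_geom hv
  have hne : ∀ x : Circ, 1 - v * ze x ≠ 0 := by
    intro x h
    have h3 := norm_sub_norm_le (1 : ℂ) (v * ze x)
    rw [h, norm_one, norm_mul, norm_ze, mul_one, norm_zero] at h3
    linarith
  have hint : ∀ n : ℤ, Integrable (fun t => (1 - v * ze t)⁻¹ * ze t ^ n) mu := by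
    intro n
    refine Integrable_mul_bdd hb.2.integrable ?_ 1 (Eventually.of_forall fun t => ?_)
    · exact (ze_continuous.zpow₀ n fun t => Or.inl (ze_ne t)).aestronglyMeasurable
    · rw [norm_zpow, norm_ze, one_zpow]
  induction m with
  | zero => simp [integral_geom hv]
  | succ m ih =>
    have h1 : ∀ x : Circ, (1 - v * ze x)⁻¹ * ze x ^ (-((m + 1 : ℕ) : ℤ))
        = ze x ^ (-((m + 1 : ℕ) : ℤ)) + v * ((1 - v * ze x)⁻¹ * ze x ^ (-(m : ℤ))) := by
      intro x
      have h2 : ze x ^ (-(m : ℤ)) = ze x * ze x ^ (-((m + 1 : ℕ) : ℤ)) := by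
        rw [← zpow_one_add₀ (ze_ne x)]
        congr 1
        push_cast
        ring
      rw [h2]
      have := hne x
      field_simp
      ring
    simp_rw [h1]
    rw [integral_add, integral_const_mul, ih, integral_zpow, if_neg (by omega), zero_add, pow_succ,
      mul_comm]
    · have := hint
      exact (ze_continuous.zpow₀ _ fun t => Or.inl (ze_ne t)).integrable_of_hasCompactSupport
        (HasCompactSupport.of_compactSpace _)
    · exact (hint _).const_mul _

/-- the analytic extension on the circle of radius `r` -/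
noncomputable def dil (r : ℝ) (H : Circ → ℂ) (x : Circ) : ℂ := ∫ y, H y * kw (r * ze x) y ∂mu

theorem norm_r_ze {r : ℝ} (hr0 : 0 ≤ r) (x : Circ) : ‖(r : ℂ) * ze x‖ = r := by
  rw [norm_mul, norm_ze, mul_one, Complex.norm_real, Real.norm_of_nonneg hr0]

theorem prod_integrable {r : ℝ} (hr0 : 0 ≤ r) (hr1 : r < 1) {H : Circ → ℂ} (i : Integrable H mu)
    (n : ℤ) : Integrable (fun p : Circ × Circ => H p.2 * kw (r * ze p.1) p.2 * ze p.1 ^ n)
      (mu.prod mu) := by
  have h1 : Integrable (fun p : Circ × Circ => H p.2) (mu.prod mu) := i.comp_snd mu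
  have hc : Continuous (fun p : Circ × Circ => kw (r * ze p.1) p.2 * ze p.1 ^ n) := by
    refine Continuous.mul ?_ ((ze_continuous.comp continuous_fst).zpow₀ n
      fun t => Or.inl (ze_ne _))
    unfold kw
    refine Continuous.inv₀ ?_ fun p => den_ne (by rw [norm_r_ze hr0]; exact hr1) _
    exact continuous_const.sub ((continuous_const.mul (ze_continuous.comp continuous_fst)).mul
      ((ze_continuous.comp continuous_snd).inv₀ fun t => ze_ne _))
  refine (h1.norm.mul_const (1 - r)⁻¹).mono' ?_ ?_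
  · have := h1.1.mul hc.aestronglyMeasurable
    refine this.congr (Eventually.of_forall fun p => ?_)
    simp only [Pi.mul_apply]
    ring
  · refine Eventually.of_forall fun p => ?_
    rw [mul_assoc, norm_mul, norm_mul, norm_zpow, norm_ze, one_zpow, mul_one]
    refine mul_le_mul_of_nonneg_left ?_ (norm_nonneg _)
    have := norm_kw_le (w := r * ze p.1) (by rw [norm_r_ze hr0]; exact hr1) p.2
    rwa [norm_r_ze hr0] at this

theorem dil_integrable {r : ℝ} (hr0 : 0 ≤ r) (hr1 : r < 1) {H : Circ → ℂ} (i : Integrable H mu) :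
    Integrable (dil r H) mu := by
  have h := (prod_integrable hr0 hr1 i 0).integral_prod_left
  refine h.congr (Eventually.of_forall fun x => ?_)
  simp only [zpow_zero, mul_one]
  rfl

theorem coeff_dil {r : ℝ} (hr0 : 0 ≤ r) (hr1 : r < 1) {H : Circ → ℂ} (i : Integrable H mu) (m : ℕ) :
    fourierCoeff (dil r H) m = r ^ m * fourierCoeff H m := by
  rw [coeff_eq, coeff_eq]
  have h1 : ∫ x, dil r H x * ze x ^ (-(m : ℤ)) ∂mu
      = ∫ x, ∫ y, H y * kw (r * ze x) y * ze x ^ (-(m : ℤ)) ∂mu ∂mu := by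
    refine integral_congr_ae (Eventually.of_forall fun x => ?_)
    simp only
    rw [dil, ← integral_mul_const]
  rw [h1, integral_integral_swap (prod_integrable hr0 hr1 i _), ← integral_const_mul]
  refine integral_congr_ae (Eventually.of_forall fun y => ?_)
  simp only
  have h2 : ∀ x : Circ, H y * kw (r * ze x) y * ze x ^ (-(m : ℤ))
      = H y * ((1 - (r * (ze y)⁻¹) * ze x)⁻¹ * ze x ^ (-(m : ℤ))) := by
    intro x
    rw [kw, mul_assoc, mul_assoc]
    congr 4
    ring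
  simp_rw [h2]
  rw [integral_const_mul, coeff_geom]
  · rw [mul_pow, zpow_neg, zpow_natCast, inv_pow]
    ring
  · rw [norm_mul, norm_inv, norm_ze, inv_one, mul_one, Complex.norm_real, Real.norm_of_nonneg hr0]
    exact hr1

theorem anal_dil {r : ℝ} (hr0 : 0 ≤ r) (hr1 : r < 1) {H : Circ → ℂ} (i : Integrable H mu) :
    Anal (dil r H) := by
  intro m
  have h1 : ∫ x, dil r H x * ze x ^ (m + 1) ∂mu
      = ∫ x, ∫ y, H y * kw (r * ze x) y * ze x ^ ((m + 1 : ℕ) : ℤ) ∂mu ∂mu := by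
    refine integral_congr_ae (Eventually.of_forall fun x => ?_)
    simp only
    rw [dil, ← integral_mul_const]
    simp_rw [zpow_natCast]
  rw [h1, integral_integral_swap (prod_integrable hr0 hr1 i _)]
  rw [← integral_zero Circ ℂ (μ := mu)]
  refine integral_congr_ae (Eventually.of_forall fun y => ?_)
  simp only
  have h2 : ∀ x : Circ, H y * kw (r * ze x) y * ze x ^ ((m + 1 : ℕ) : ℤ)
      = H y * ((1 - (r * (ze y)⁻¹) * ze x)⁻¹ * ze x ^ (m + 1)) := by
    intro x
    rw [kw, mul_assoc, zpow_natCast]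
    congr 4
    ring
  simp_rw [h2]
  rw [integral_const_mul]
  have h3 : ‖(r : ℂ) * (ze y)⁻¹‖ < 1 := by
    rw [norm_mul, norm_inv, norm_ze, inv_one, mul_one, Complex.norm_real, Real.norm_of_nonneg hr0]
    exact hr1
  rw [(anal_geom h3).1 m, mul_zero]

theorem norm_fej_le_of_interior {H : Circ → ℂ} (a : Anal H) (i : Integrable H mu) (C : ℝ)
    (hC : ∀ w : ℂ, ‖w‖ < 1 → ‖∫ x, H x * kw w x ∂mu‖ ≤ C) (N : ℕ) (x : Circ) :
    ‖fej N H x‖ ≤ C := by
  have h1 : ∀ r : ℝ, 0 ≤ r → r < 1 → ‖fej N (dil r H) x‖ ≤ C := by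
    intro r hr0 hr1
    refine norm_fej_le N _ (dil_integrable hr0 hr1 i) C (Eventually.of_forall fun t => ?_) x
    exact hC _ (by rw [norm_r_ze hr0]; exact hr1)
  have h2 : Tendsto (fun r : ℝ => fej N (dil r H) x) (𝓝[<] 1) (𝓝 (fej N H x)) := by
    unfold fej
    refine tendsto_const_nhds.mul (tendsto_finsetSum _ fun j _ => tendsto_finsetSum _ fun k _ => ?_)
    refine Tendsto.mul_const _ ?_
    by_cases hjk : (j : ℤ) - k < 0
    · rw [anal_coeff a _ hjk]
      refine Tendsto.congr' (f₁ := fun _ => 0) ?_ tendsto_const_nhds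
      have : ∀ᶠ r : ℝ in 𝓝[<] 1, 0 < r ∧ r < 1 := by
        filter_upwards [Ioo_mem_nhdsLT (show (0 : ℝ) < 1 by norm_num)] with r hr using hr
      filter_upwards [this] with r hr
      rw [anal_coeff (anal_dil hr.1.le hr.2 i) _ hjk]
    · obtain ⟨m, hm⟩ : ∃ m : ℕ, (j : ℤ) - k = m := ⟨((j : ℤ) - k).toNat, by omega⟩
      rw [hm]
      have h3 : Tendsto (fun r : ℝ => (r : ℂ) ^ m * fourierCoeff H m) (𝓝[<] 1)
          (𝓝 (fourierCoeff H m)) := by
        have h4 : Tendsto (fun r : ℝ => (r : ℂ) ^ m * fourierCoeff H m) (𝓝 1)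
            (𝓝 (((1 : ℝ) : ℂ) ^ m * fourierCoeff H m)) :=
          ((Complex.continuous_ofReal.pow m).mul continuous_const).tendsto 1
        rw [Complex.ofReal_one, one_pow, one_mul] at h4
        exact h4.mono_left nhdsWithin_le_nhds
      refine h3.congr' ?_
      have : ∀ᶠ r : ℝ in 𝓝[<] 1, 0 < r ∧ r < 1 := by
        filter_upwards [Ioo_mem_nhdsLT (show (0 : ℝ) < 1 by norm_num)] with r hr using hr
      filter_upwards [this] with r hr
      rw [coeff_dil hr.1.le hr.2 i]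
  refine le_of_tendsto h2.norm ?_
  filter_upwards [Ioo_mem_nhdsLT (show (0 : ℝ) < 1 by norm_num)] with r hr
  exact h1 r hr.1.le hr.2

/-- the limit of functions bounded by `C` -/
theorem bound_of_tendsto {h : ℕ → Circ → ℂ} {h0 : Circ → ℂ} (hh : ∀ n, Integrable (h n) mu)
    (hh0 : Integrable h0 mu)
    (hlim : Tendsto (fun n => ∫ x, ‖h n x - h0 x‖ ∂mu) atTop (𝓝 0)) (C : ℝ)
    (hC : ∀ n x, ‖h n x‖ ≤ C) : ∀ᵐ x ∂mu, ‖h0 x‖ ≤ C := by
  have h1 : TendstoInMeasure mu h atTop h0 := by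
    refine tendstoInMeasure_of_tendsto_eLpNorm (p := 1) one_ne_zero (fun n => (hh n).1) hh0.1 ?_
    have h2 : ∀ n, eLpNorm (h n - h0) 1 mu = ENNReal.ofReal (∫ x, ‖h n x - h0 x‖ ∂mu) := by
      intro n
      have h3 := ofReal_integral_norm_eq_lintegral_enorm ((hh n).sub hh0)
      rw [eLpNorm_one_eq_lintegral_enorm, ← h3]
      rfl
    simp_rw [h2]
    have := ENNReal.tendsto_ofReal hlim
    rwa [ENNReal.ofReal_zero] at this
  obtain ⟨ns, -, hns⟩ := h1.exists_seq_tendsto_ae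
  filter_upwards [hns] with x hx
  exact le_of_tendsto hx.norm (Eventually.of_forall fun n => hC _ _)

theorem bound_of_interior {H : Circ → ℂ} (a : Anal H) (m : MemLp H 2 mu) (C : ℝ)
    (hC : ∀ w : ℂ, ‖w‖ < 1 → ‖∫ x, H x * kw w x ∂mu‖ ≤ C) : ∀ᵐ x ∂mu, ‖H x‖ ≤ C := by
  have i : Integrable H mu := m.integrable (by norm_num)
  refine bound_of_tendsto (h := fun N => fej N H) (fun N => ?_) i (fej_tendsto H m) C
    fun N x => norm_fej_le_of_interior a i C hC N x
  obtain ⟨M', hM'⟩ := fej_bdd N H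
  exact (Bd.of_continuous (fej_continuous N H) hM').integrable

end Pool.Agent.Lib.MP_e9aa5f_an
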