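import Mathlib
import Pool.Agent.Lib.MP_e9aa5f_an.Kernel

set_option autoImplicit false

namespace Pool.Agent.Lib.MP_e9aa5f_an

open MeasureTheory AddCircle Filter Topology Finset
open scoped ENNReal ComplexConjugate InnerProductSpace

theorem coeff_inner (Φ : Lp ℂ 2 mu) (n : ℤ) :
    fourierCoeff Φ n = inner ℂ (fourierLp 2 n : Lp ℂ 2 mu) Φ := by
  rw [← fourierBasis_repr, HilbertBasis.repr_apply_apply, coe_fourierBasis]

theorem fourierLp_mem_hardy (n : ℕ) : (fourierLp 2 (n : ℤ) : Lp ℂ 2 mu) ∈ hardy :=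
  Submodule.le_topologicalClosure _ (Submodule.subset_span ⟨n, rfl⟩)

theorem coeff_of_mem_hardy {Φ : Lp ℂ 2 mu} (h : Φ ∈ hardy) (n : ℤ) (hn : n < 0) :
    fourierCoeff Φ n = 0 := by
  rw [coeff_inner]
  have h1 : hardy ≤ (Submodule.span ℂ {(fourierLp 2 n : Lp ℂ 2 mu)})ᗮ := by
    refine Submodule.topologicalClosure_minimal _ ?_ (Submodule.isClosed_orthogonal _)
    rw [Submodule.span_le]
    rintro _ ⟨m, rfl⟩
    rw [SetLike.mem_coe, Submodule.mem_orthogonal_singleton_iff_inner_right]
    exact orthonormal_fourier.2 (by omega)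
  exact (Submodule.mem_orthogonal_singleton_iff_inner_right.mp (h1 h))

theorem coeff_Pplus_neg (Φ : Lp ℂ 2 mu) (n : ℤ) (hn : n < 0) : fourierCoeff (Pplus Φ) n = 0 :=
  coeff_of_mem_hardy (Submodule.starProjection_apply_mem _ _) n hn

theorem coeff_Pplus (Φ : Lp ℂ 2 mu) (n : ℕ) :
    fourierCoeff (Pplus Φ) n = fourierCoeff Φ n := by
  rw [coeff_inner, coeff_inner, Pplus]
  have h1 : inner ℂ (fourierLp 2 (n : ℤ) : Lp ℂ 2 mu) (hardy.starProjection Φ)
      = inner ℂ (hardy.starProjection (fourierLp 2 (n : ℤ) : Lp ℂ 2 mu)) Φ :=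
    (Submodule.inner_starProjection_left_eq_right _ _ _).symm
  rw [h1, Submodule.starProjection_eq_self_iff.mpr (fourierLp_mem_hardy n)]

theorem norm_Pplus_le (Φ : Lp ℂ 2 mu) : ‖Pplus Φ‖ ≤ ‖Φ‖ := Submodule.norm_starProjection_apply_le _ _

theorem anal_Pplus (Φ : Lp ℂ 2 mu) : Anal (Pplus Φ) :=
  anal_of_coeff fun n hn => coeff_Pplus_neg Φ n hn

theorem integral_norm_sq (G : Lp ℂ 2 mu) : ∫ x, ‖G x‖ ^ 2 ∂mu = ‖G‖ ^ 2 := by
  have H₃ := congr_arg RCLike.re (@L2.inner_def Circ ℂ ℂ _ _ _ _ _ G G)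
  rw [← integral_re] at H₃
  · simp only [← norm_sq_eq_re_inner] at H₃
    rw [H₃]
  · exact L2.integrable_inner G G

theorem eq_zero_of_coeff (G : Lp ℂ 2 mu) (h : ∀ n, fourierCoeff G n = 0) : G = 0 := by
  have h1 := hasSum_fourier_series_L2 (T := 1) G
  simp_rw [h, zero_smul] at h1
  exact h1.unique hasSum_zero

theorem coeff_conj (h : Circ → ℂ) (n : ℤ) :
    fourierCoeff (fun x => conj (h x)) n = conj (fourierCoeff h (-n)) := by
  rw [coeff_eq, coeff_eq, ← integral_conj]
  refine integral_congr_ae (Eventually.of_forall fun x => ?_)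
  simp only
  rw [map_mul, map_zpow₀, conj_ze, neg_neg, inv_zpow, zpow_neg]

/-- The Herglotz transform of a bounded real function. -/
theorem herglotz (u : Circ → ℝ) {M : ℝ} (hu : Bd (fun x => (u x : ℂ)) M) :
    ∃ F : Circ → ℂ, Anal F ∧ MemLp F 2 mu ∧ (∀ᵐ x ∂mu, (F x).re = u x) ∧
      ∫ x, ‖F x‖ ^ 2 ∂mu ≤ 9 * ∫ x, u x ^ 2 ∂mu := by
  set U : Lp ℂ 2 mu := hu.memLp2.toLp with hU
  have hUc : U =ᵐ[mu] fun x => (u x : ℂ) := hu.memLp2.coeFn_toLp
  set c : ℂ := fourierCoeff U 0 with hc
  set F : Lp ℂ 2 mu := (2 : ℂ) • Pplus U - c • (fourierLp 2 0 : Lp ℂ 2 mu) with hF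
  have hcoef : ∀ n : ℤ, fourierCoeff F n = 2 * fourierCoeff (Pplus U) n
      - c * (if n = 0 then 1 else 0) := by
    intro n
    rw [coeff_inner, hF, inner_sub_right, inner_smul_right, inner_smul_right, ← coeff_inner]
    congr 2
    have := (orthonormal_iff_ite (𝕜 := ℂ)).mp (orthonormal_fourier (T := 1)) n 0
    exact this
  have hureal : ∀ n : ℤ, conj (fourierCoeff U (-n)) = fourierCoeff U n := by
    intro n
    rw [← coeff_conj]
    refine congrFun (fourierCoeff_congr_ae ?_) n
    filter_upwards [hUc] with x hx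
    rw [hx, Complex.conj_ofReal]
  refine ⟨F, ?_, Lp.memLp F, ?_, ?_⟩
  · refine anal_of_coeff fun n hn => ?_
    rw [hcoef, coeff_Pplus_neg U n hn, if_neg (by omega)]
    ring
  · -- real part
    have hm : MemLp (fun x => F x + conj (F x) - 2 * (u x : ℂ)) 2 mu := by
      have h1 := (Lp.memLp F).add (Lp.memLp F).star
      exact h1.sub (hu.memLp2.const_mul 2)
    have hz : hm.toLp = 0 := by
      apply eq_zero_of_coeff
      intro n
      rw [fourierCoeff_congr_ae hm.coeFn_toLp]
      have iF : Integrable F mu := (Lp.memLp F).integrable (by norm_num)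
      have iFc : Integrable (fun x => conj (F x)) mu := by
        have := (Lp.memLp F).star.integrable (by norm_num)
        exact this
      have iu : Integrable (fun x => 2 * (u x : ℂ)) mu := hu.integrable.const_mul 2
      have hint : ∀ (h : Circ → ℂ), Integrable h mu → Integrable (fun x => h x * ze x ^ (-n)) mu := by
        intro h hh
        refine Integrable_mul_bdd hh ?_ 1 (Eventually.of_forall fun t => ?_)
        · exact (ze_continuous.zpow₀ _ fun t => Or.inl (ze_ne t)).aestronglyMeasurable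
        · rw [norm_zpow, norm_ze, one_zpow]
      have h1 : fourierCoeff (fun x => F x + conj (F x) - 2 * (u x : ℂ)) n
          = fourierCoeff F n + fourierCoeff (fun x => conj (F x)) n - 2 * fourierCoeff U n := by
        have e0 : fourierCoeff U n = ∫ x, (u x : ℂ) * ze x ^ (-n) ∂mu := by
          rw [fourierCoeff_congr_ae hUc, coeff_eq]
        rw [coeff_eq, coeff_eq, coeff_eq (fun x => conj (F x)), e0, ← integral_const_mul,
          ← integral_add (hint _ iF) (hint _ iFc), ← integral_sub]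
        · refine integral_congr_ae (Eventually.of_forall fun x => ?_)
          simp only
          ring
        · exact (hint _ iF).add (hint _ iFc)
        · have := hint _ iu
          refine this.congr (Eventually.of_forall fun x => ?_)
          simp only
          ring
      rw [h1, coeff_conj, hcoef, hcoef]
      rcases lt_trichotomy n 0 with hn | hn | hn
      · rw [coeff_Pplus_neg U n hn, if_neg (by omega), if_neg (by omega)]
        obtain ⟨m, hm'⟩ : ∃ m : ℕ, -n = m := ⟨(-n).toNat, by omega⟩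
        rw [hm', coeff_Pplus, ← hm']
        simp only [mul_zero, sub_zero, map_mul, zero_add, hureal, map_ofNat, sub_self]
      · subst hn
        have h2 := coeff_Pplus U 0
        rw [Nat.cast_zero] at h2
        have h3 := hureal 0
        rw [neg_zero] at h3 ⊢
        rw [h2, if_pos rfl, mul_one, ← hc, map_sub, map_mul]
        rw [← hc] at h3
        rw [h3]
        simp only [map_ofNat]
        ring
      · rw [coeff_Pplus_neg U (-n) (by omega), if_neg (by omega), if_neg (by omega)]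
        obtain ⟨m, hm'⟩ : ∃ m : ℕ, n = m := ⟨n.toNat, by omega⟩
        rw [hm', coeff_Pplus]
        simp
    have h2 : (fun x => F x + conj (F x) - 2 * (u x : ℂ)) =ᵐ[mu] fun _ => 0 := by
      have h3 := hm.coeFn_toLp
      rw [hz] at h3
      exact h3.symm.trans (Lp.coeFn_zero ℂ 2 mu)
    filter_upwards [h2] with x hx
    have h4 := congrArg Complex.re hx
    simp at h4
    linarith
  · have h1 : ‖F‖ ≤ 3 * ‖U‖ := by
      have hcn : ‖c‖ ≤ ‖U‖ := by
        rw [hc, coeff_inner]
        refine (norm_inner_le_norm _ _).trans ?_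
        rw [(orthonormal_fourier (T := 1)).1 0, one_mul]
      calc ‖F‖ ≤ ‖(2 : ℂ) • Pplus U‖ + ‖c • (fourierLp 2 0 : Lp ℂ 2 mu)‖ := norm_sub_le _ _
        _ = 2 * ‖Pplus U‖ + ‖c‖ := by
            rw [norm_smul, norm_smul, (orthonormal_fourier (T := 1)).1 0, mul_one]
            simp
        _ ≤ 2 * ‖U‖ + ‖U‖ := add_le_add (mul_le_mul_of_nonneg_left (norm_Pplus_le U) (by norm_num)) hcn
        _ = 3 * ‖U‖ := by ring
    rw [integral_norm_sq]
    have h2 : ∫ x, u x ^ 2 ∂mu = ‖U‖ ^ 2 := by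
      rw [← integral_norm_sq]
      refine integral_congr_ae ?_
      filter_upwards [hUc] with x hx
      rw [hx, Complex.norm_real, Real.norm_eq_abs, sq_abs]
    rw [h2]
    have h3 : ‖F‖ ^ 2 ≤ (3 * ‖U‖) ^ 2 := by gcongr
    linarith

/-- The Cauchy integral of `Φ` is that of `P₊ Φ`. -/
theorem integral_Pplus_kw {w : ℂ} (hw : ‖w‖ < 1) (Φ : Lp ℂ 2 mu) :
    ∫ x, Pplus Φ x * kw w x ∂mu = ∫ x, Φ x * kw w x ∂mu := by
  -- `K` is the reproducing kernel, an element of `H²`
  have hw' : ‖conj w‖ < 1 := by rwa [RCLike.norm_conj]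
  have hg := anal_geom hw'
  set K : Lp ℂ 2 mu := hg.2.memLp2.toLp with hK
  have hKc : K =ᵐ[mu] fun x => (1 - conj w * ze x)⁻¹ := hg.2.memLp2.coeFn_toLp
  have h1 : ∀ Ψ : Lp ℂ 2 mu, ∫ x, Ψ x * kw w x ∂mu = inner ℂ K Ψ := by
    intro Ψ
    rw [L2.inner_def]
    refine integral_congr_ae ?_
    filter_upwards [hKc] with x hx
    rw [hx, RCLike.inner_apply, map_inv₀, ← conj_den, Complex.conj_conj, kw]
  have hKmem : K ∈ hardy := by
    have h2 := hasSum_fourier_series_L2 (T := 1) K
    have h3 : ∀ n : ℤ, fourierCoeff K n • (fourierLp 2 n : Lp ℂ 2 mu) ∈ hardy := by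
      intro n
      rcases lt_or_ge n 0 with hn | hn
      · rw [fourierCoeff_congr_ae hKc, anal_coeff hg.1 n hn, zero_smul]
        exact Submodule.zero_mem _
      · obtain ⟨m, hm'⟩ : ∃ m : ℕ, n = m := ⟨n.toNat, by omega⟩
        rw [hm']
        exact Submodule.smul_mem _ _ (fourierLp_mem_hardy m)
    exact (Submodule.isClosed_topologicalClosure _).mem_of_tendsto h2
      (Eventually.of_forall fun s => Submodule.sum_mem _ fun n _ => h3 n)
  rw [h1, h1, Pplus, ← Submodule.inner_starProjection_left_eq_right,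
    Submodule.starProjection_eq_self_iff.mpr hKmem]

end Pool.Agent.Lib.MP_e9aa5f_an
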