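import Mathlib
import Pool.Agent.Lib.MP_e9aa5f_an.Riesz

set_option autoImplicit false

namespace Pool.Agent.Lib.MP_e9aa5f_an

open MeasureTheory AddCircle Filter Topology Finset
open scoped ENNReal ComplexConjugate InnerProductSpace

/-- the Fejér mean of an analytic function is a polynomial -/
theorem exists_poly_fej (N : ℕ) {h : Circ → ℂ} (a : Anal h) :
    ∃ P : Polynomial ℂ, ∀ x, P.eval (ze x) = fej N h x := by
  refine ⟨Polynomial.C (((N : ℂ) + 1)⁻¹) * ∑ j ∈ range (N + 1), ∑ k ∈ range (N + 1),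
    (if (j : ℤ) - k < 0 then 0 else Polynomial.C (fourierCoeff h ((j : ℤ) - k)) *
      Polynomial.X ^ (j - k)), fun x => ?_⟩
  rw [fej, Polynomial.eval_mul, Polynomial.eval_C, Polynomial.eval_finsetSum]
  congr 1
  refine sum_congr rfl fun j _ => ?_
  rw [Polynomial.eval_finsetSum]
  refine sum_congr rfl fun k _ => ?_
  by_cases hjk : (j : ℤ) - k < 0
  · rw [if_pos hjk, anal_coeff a _ hjk, zero_mul, Polynomial.eval_zero]
  · rw [if_neg hjk, Polynomial.eval_mul, Polynomial.eval_C, Polynomial.eval_pow, Polynomial.eval_X]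
    have : (j : ℤ) - k = ((j - k : ℕ) : ℤ) := by omega
    rw [this, zpow_natCast]

theorem integral_mul_le_of_poly {f : Circ → ℂ} {B : ℝ} (bf : Bd f B) {w : ℂ} (hw : ‖w‖ < 1) (C : ℝ)
    (hC : ∀ g : Polynomial ℂ, (∀ x, ‖g.eval (ze x)‖ ≤ 1) →
      ‖∫ x, f x * g.eval (ze x) * kw w x ∂mu‖ ≤ C)
    {h : Circ → ℂ} (a : Anal h) (bh : Bd h 1) : ‖∫ x, h x * (f x * kw w x) ∂mu‖ ≤ C := by
  have bk := bf.mul (kw_bd hw)
  have h1 := tendsto_integral_mul (h := fun N => fej N h) (fun N => by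
    obtain ⟨M', hM'⟩ := fej_bdd N h
    exact (Bd.of_continuous (fej_continuous N h) hM').integrable) bh.integrable
    (fej_tendsto h bh.memLp2) bk.1 _ bk.2
  refine le_of_tendsto h1.norm (Eventually.of_forall fun N => ?_)
  obtain ⟨P, hP⟩ := exists_poly_fej N a
  have h2 := hC P (fun x => by rw [hP]; exact norm_fej_le N h bh.integrable 1 bh.2 x)
  have h3 : ∫ x, fej N h x * (f x * kw w x) ∂mu = ∫ x, f x * P.eval (ze x) * kw w x ∂mu := by
    refine integral_congr_ae (Eventually.of_forall fun x => ?_)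
    simp only
    rw [hP]; ring
  rw [h3]
  exact h2

/-- Riesz representation for functionals dominated by the `L¹` norm -/
theorem exists_density (Λ : Lp ℂ 2 mu →ₗ[ℂ] ℂ) (hΛ : ∀ Φ : Lp ℂ 2 mu, ‖Λ Φ‖ ≤ ∫ x, ‖Φ x‖ ∂mu) :
    ∃ h : Circ → ℂ, Bd h 1 ∧ ∀ Φ : Lp ℂ 2 mu, Λ Φ = ∫ x, h x * Φ x ∂mu := by
  have h12 : ∀ Φ : Lp ℂ 2 mu, ∫ x, ‖Φ x‖ ∂mu ≤ ‖Φ‖ := by
    intro Φ
    rw [integral_norm_eq_lintegral_enorm (Lp.aestronglyMeasurable _), ← eLpNorm_one_eq_lintegral_enorm,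
      Lp.norm_def]
    exact ENNReal.toReal_mono (Lp.memLp Φ).2.ne
      (eLpNorm_le_eLpNorm_of_exponent_le (by norm_num) (Lp.aestronglyMeasurable _))
  set L : StrongDual ℂ (Lp ℂ 2 mu) := Λ.mkContinuous 1 (fun Φ => by
    rw [one_mul]; exact (hΛ Φ).trans (h12 Φ)) with hL
  set g : Lp ℂ 2 mu := (InnerProductSpace.toDual ℂ (Lp ℂ 2 mu)).symm L with hg
  have hrep : ∀ Φ : Lp ℂ 2 mu, Λ Φ = ∫ x, conj (g x) * Φ x ∂mu := by
    intro Φ
    have h1 : inner ℂ g Φ = L Φ := InnerProductSpace.toDual_symm_apply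
    have h2 : L Φ = Λ Φ := rfl
    rw [← h2, ← h1, L2.inner_def]
    refine integral_congr_ae (Eventually.of_forall fun x => ?_)
    simp only [RCLike.inner_apply]
    ring
  refine ⟨fun x => conj (g x), ⟨(Lp.aestronglyMeasurable g).star, ?_⟩, hrep⟩
  have ig : Integrable (fun x => ‖g x‖) mu := ((Lp.memLp g).integrable (by norm_num)).norm
  have key : (fun x => ‖g x‖) ≤ᵐ[mu] fun _ => (1 : ℝ) := by
    refine ae_le_of_forall_setIntegral_le ig (integrable_const 1) ?_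
    intro s hs _
    -- test function
    have hbd : Bd (s.indicator fun x => g x * ((‖g x‖⁻¹ : ℝ) : ℂ)) 1 := by
      refine ⟨AEStronglyMeasurable.indicator ?_ hs, Eventually.of_forall fun x => ?_⟩
      · exact (Lp.aestronglyMeasurable g).mul
          (Complex.continuous_ofReal.comp_aestronglyMeasurable
            (Lp.aestronglyMeasurable g).norm.aemeasurable.inv.aestronglyMeasurable)
      · by_cases hx : x ∈ s
        · rw [Set.indicator_of_mem hx, norm_mul, Complex.norm_real, norm_inv, norm_norm]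
          by_cases h0 : ‖g x‖ = 0
          · rw [h0]; norm_num
          · rw [mul_inv_cancel₀ h0]
        · rw [Set.indicator_of_notMem hx, norm_zero]; exact zero_le_one
    have h3 := hΛ hbd.memLp2.toLp
    rw [hrep] at h3
    have h4 : ∫ x, conj (g x) * (hbd.memLp2.toLp : Lp ℂ 2 mu) x ∂mu
        = ((∫ x in s, ‖g x‖ ∂mu : ℝ) : ℂ) := by
      rw [← integral_indicator hs]
      have h5 : ((∫ x, s.indicator (fun x => ‖g x‖) x ∂mu : ℝ) : ℂ)
          = ∫ x, ((s.indicator (fun x => ‖g x‖) x : ℝ) : ℂ) ∂mu := integral_ofReal.symm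
      rw [h5]
      refine integral_congr_ae ?_
      filter_upwards [hbd.memLp2.coeFn_toLp] with x hx
      rw [hx]
      by_cases hxs : x ∈ s
      · rw [Set.indicator_of_mem hxs, Set.indicator_of_mem hxs]
        by_cases h0 : ‖g x‖ = 0
        · have : g x = 0 := norm_eq_zero.mp h0
          rw [this]; simp
        · have h6 : conj (g x) * g x = ((‖g x‖ ^ 2 : ℝ) : ℂ) := by
            rw [RCLike.conj_mul]; push_cast; rfl
          rw [← mul_assoc, h6, ← Complex.ofReal_mul]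
          congr 1
          field_simp
      · rw [Set.indicator_of_notMem hxs, Set.indicator_of_notMem hxs, mul_zero, Complex.ofReal_zero]
    rw [h4, Complex.norm_real, Real.norm_of_nonneg (integral_nonneg fun x => norm_nonneg _)] at h3
    refine h3.trans ?_
    have h7 : ∫ x, ‖(hbd.memLp2.toLp : Lp ℂ 2 mu) x‖ ∂mu ≤ ∫ x, s.indicator (fun _ => (1 : ℝ)) x ∂mu := by
      refine integral_mono_of_nonneg (Eventually.of_forall fun x => norm_nonneg _)
        ((integrable_const 1).indicator hs) ?_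
      filter_upwards [hbd.memLp2.coeFn_toLp, hbd.2] with x hx hx2
      rw [hx]
      by_cases hxs : x ∈ s
      · rw [Set.indicator_of_mem hxs (fun _ => (1 : ℝ))]; exact hx2
      · rw [Set.indicator_of_notMem hxs, Set.indicator_of_notMem hxs, norm_zero]
    rwa [integral_indicator hs] at h7
  filter_upwards [key] with x hx
  rw [RCLike.norm_conj]
  exact hx

theorem exists_approx {f : Circ → ℂ} {B : ℝ} (bf : Bd f B) {w : ℂ} (hw : ‖w‖ < 1) (C : ℝ)
    (hC : ∀ g : Polynomial ℂ, (∀ x, ‖g.eval (ze x)‖ ≤ 1) →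
      ‖∫ x, f x * g.eval (ze x) * kw w x ∂mu‖ ≤ C) (δ : ℝ) (hδ : 0 < δ) :
    ∃ q : Polynomial ℂ, ∫ x, ‖f x * kw w x - ze x * q.eval (ze x)‖ ∂mu ≤ C + δ := by
  have bk := bf.mul (kw_bd hw)
  set S : Submodule ℂ (Lp ℂ 1 mu) :=
    Submodule.span ℂ (Set.range fun n : ℕ => (fourierLp 1 ((n : ℤ) + 1) : Lp ℂ 1 mu)) with hS
  have m1 : ∀ Φ : Lp ℂ 2 mu, MemLp Φ 1 mu := fun Φ => (Lp.memLp Φ).mono_exponent (by norm_num)
  obtain ⟨G, hG1, hG2⟩ := exists_dual_vector'' ℂ
    (Submodule.Quotient.mk (p := S) ((bk.memLp2.mono_exponent (show (1 : ℝ≥0∞) ≤ 2 by norm_num)).toLp))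
  set v : Lp ℂ 1 mu := (bk.memLp2.mono_exponent (show (1 : ℝ≥0∞) ≤ 2 by norm_num)).toLp with hv
  -- the functional on `L²`
  let Λ : Lp ℂ 2 mu →ₗ[ℂ] ℂ :=
    { toFun := fun Φ => G (Submodule.Quotient.mk (m1 Φ).toLp)
      map_add' := by
        intro Φ Ψ
        rw [← map_add, ← Submodule.Quotient.mk_add, ← MemLp.toLp_add]
        congr 2
        exact MemLp.toLp_congr _ _ (Lp.coeFn_add Φ Ψ)
      map_smul' := by
        intro c Φ
        rw [RingHom.id_apply, ← map_smul, ← Submodule.Quotient.mk_smul, ← MemLp.toLp_const_smul]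
        congr 2
        exact MemLp.toLp_congr _ _ (Lp.coeFn_smul c Φ) }
  have hL1 : ∀ (φ : Lp ℂ 1 mu), ‖φ‖ = ∫ x, ‖φ x‖ ∂mu := fun φ => L1.norm_eq_integral_norm φ
  have hΛ : ∀ Φ : Lp ℂ 2 mu, ‖Λ Φ‖ ≤ ∫ x, ‖Φ x‖ ∂mu := by
    intro Φ
    have h1 : ‖Λ Φ‖ ≤ ‖(m1 Φ).toLp‖ := by
      calc ‖Λ Φ‖ ≤ ‖G‖ * ‖(Submodule.Quotient.mk (p := S) (m1 Φ).toLp)‖ := G.le_opNorm _
        _ ≤ 1 * ‖(m1 Φ).toLp‖ := by
            refine mul_le_mul hG1 (Submodule.Quotient.norm_mk_le S _) (norm_nonneg _) zero_le_one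
        _ = _ := one_mul _
    refine h1.trans (le_of_eq ?_)
    rw [hL1]
    refine integral_congr_ae ?_
    filter_upwards [(m1 Φ).coeFn_toLp] with x hx
    rw [hx]
  obtain ⟨h, bh, hh⟩ := exists_density Λ hΛ
  have ah : Anal h := by
    intro n
    have h1 : Λ (fourierLp 2 ((n : ℤ) + 1)) = 0 := by
      have h2 : (m1 (fourierLp 2 ((n : ℤ) + 1))).toLp = (fourierLp 1 ((n : ℤ) + 1) : Lp ℂ 1 mu) := by
        apply Lp.ext
        filter_upwards [(m1 (fourierLp 2 ((n : ℤ) + 1))).coeFn_toLp,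
          coeFn_fourierLp (T := 1) 2 ((n : ℤ) + 1), coeFn_fourierLp (T := 1) 1 ((n : ℤ) + 1)]
          with x e1 e2 e3
        rw [e1, e2, e3]
      change G (Submodule.Quotient.mk (m1 (fourierLp 2 ((n : ℤ) + 1))).toLp) = 0
      rw [h2, (Submodule.Quotient.mk_eq_zero S).mpr (Submodule.subset_span ⟨n, rfl⟩), map_zero]
    rw [hh] at h1
    rw [← h1]
    refine integral_congr_ae ?_
    filter_upwards [coeFn_fourierLp (T := 1) 2 ((n : ℤ) + 1)] with x hx
    rw [hx, fourier_eq]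
    norm_cast
  have hval : Λ bk.memLp2.toLp = ∫ x, h x * (f x * kw w x) ∂mu := by
    rw [hh]
    refine integral_congr_ae ?_
    filter_upwards [bk.memLp2.coeFn_toLp] with x hx
    rw [hx]
  have hval2 : Λ bk.memLp2.toLp = G (Submodule.Quotient.mk v) := by
    change G (Submodule.Quotient.mk (m1 bk.memLp2.toLp).toLp) = _
    congr 2
    exact MemLp.toLp_congr _ _ bk.memLp2.coeFn_toLp
  have hnorm : ‖(Submodule.Quotient.mk (p := S) v)‖ ≤ C := by
    have h1 := integral_mul_le_of_poly bf hw C hC ah bh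
    rw [← hval, hval2, hG2] at h1
    simpa using h1
  obtain ⟨m, hm, hm2⟩ := Submodule.Quotient.norm_mk_lt (Submodule.Quotient.mk (p := S) v) hδ
  have hmem : v - m ∈ S := by
    rw [← Submodule.Quotient.eq]
    exact hm.symm
  have hpoly : ∀ s ∈ S, ∃ q : Polynomial ℂ, s =ᵐ[mu] fun x => ze x * q.eval (ze x) := by
    intro s hs
    refine Submodule.span_induction ?_ ?_ ?_ ?_ hs
    · rintro _ ⟨n, rfl⟩
      refine ⟨Polynomial.X ^ n, ?_⟩
      filter_upwards [coeFn_fourierLp (T := 1) 1 ((n : ℤ) + 1)] with x hx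
      rw [hx, fourier_eq, Polynomial.eval_pow, Polynomial.eval_X, zpow_add_one₀ (ze_ne x),
        zpow_natCast, mul_comm]
    · refine ⟨0, ?_⟩
      filter_upwards [Lp.coeFn_zero ℂ 1 mu] with x hx
      rw [hx]; simp
    · rintro a b _ _ ⟨qa, ha⟩ ⟨qb, hb⟩
      refine ⟨qa + qb, ?_⟩
      filter_upwards [ha, hb, Lp.coeFn_add a b] with x h1 h2 h3
      rw [h3, Pi.add_apply, h1, h2, Polynomial.eval_add]; ring
    · rintro c a _ ⟨qa, ha⟩
      refine ⟨Polynomial.C c * qa, ?_⟩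
      filter_upwards [ha, Lp.coeFn_smul c a] with x h1 h3
      rw [h3, Pi.smul_apply, h1, Polynomial.eval_mul, Polynomial.eval_C, smul_eq_mul]; ring
  obtain ⟨q, hq⟩ := hpoly _ hmem
  refine ⟨q, ?_⟩
  have h5 : ∫ x, ‖f x * kw w x - ze x * q.eval (ze x)‖ ∂mu = ‖m‖ := by
    rw [hL1]
    refine integral_congr_ae ?_
    have hvc : v =ᵐ[mu] fun x => f x * kw w x :=
      (bk.memLp2.mono_exponent (show (1 : ℝ≥0∞) ≤ 2 by norm_num)).coeFn_toLp
    filter_upwards [hq, hvc, Lp.coeFn_sub v m] with x h1 h2 h3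
    rw [h3, Pi.sub_apply, h2] at h1
    rw [← h1]
    congr 1
    ring
  rw [h5]
  linarith

end Pool.Agent.Lib.MP_e9aa5f_an
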