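import Mathlib
import Pool.Agent.Lib.MP_e9aa5f_an.Duality

set_option autoImplicit false

namespace Pool.Agent.Lib.MP_e9aa5f_an

open MeasureTheory AddCircle Filter Topology Finset
open scoped ENNReal NNReal ComplexConjugate

theorem anal_poly (g : Polynomial ℂ) : Anal (fun x => g.eval (ze x)) := by
  have h : (fun x => g.eval (ze x)) = fun x => ∑ i ∈ range (g.natDegree + 1), g.coeff i * ze x ^ i := by
    funext x
    rw [Polynomial.eval_eq_sum_range]
  rw [h]
  refine Anal.sum _ _ (fun i _ => ?_) fun i _ => ?_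
  · have := ((Anal.const 1).mul_pow i).const_mul (g.coeff i)
    simpa using this
  · exact (Bd.pow_ze i).integrable.const_mul _

theorem poly_continuous (g : Polynomial ℂ) : Continuous (fun x => g.eval (ze x)) :=
  g.continuous.comp ze_continuous

theorem poly_bdd (g : Polynomial ℂ) : ∃ M, Bd (fun x => g.eval (ze x)) M := by
  obtain ⟨M, hM⟩ := isCompact_univ.exists_bound_of_continuousOn (poly_continuous g).continuousOn
  exact ⟨M, Bd.of_continuous (poly_continuous g) fun x => hM x (Set.mem_univ x)⟩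

theorem anal_comp {Ψ : ℂ → ℂ} {p : FormalMultilinearSeries ℂ ℂ ℂ}
    (hΨ : HasFPowerSeriesOnBall Ψ p 0 1) {v : ℂ} (hv : ‖v‖ < 1)
    (hc : Continuous fun x : Circ => Ψ (v * ze x)) : Anal (fun x => Ψ (v * ze x)) := by
  obtain ⟨M, hM⟩ := isCompact_univ.exists_bound_of_continuousOn hc.continuousOn
  have ib := (Bd.of_continuous hc fun x => hM x (Set.mem_univ x)).integrable
  obtain ⟨r, hr1, hr2⟩ := exists_between hv
  have hr0 : 0 ≤ r := (norm_nonneg v).trans hr1.le
  have hu := hΨ.tendstoUniformlyOn (r' := ⟨r, hr0⟩) (by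
    rw [← ENNReal.coe_one]
    exact ENNReal.coe_lt_coe.mpr hr2)
  have hpart : ∀ n, Anal (fun x => p.partialSum n (v * ze x)) ∧
      Continuous (fun x : Circ => p.partialSum n (v * ze x)) := by
    intro n
    have h1 : (fun x : Circ => p.partialSum n (v * ze x))
        = fun x => ∑ k ∈ range n, (p.coeff k * v ^ k) * ze x ^ k := by
      funext x
      rw [FormalMultilinearSeries.partialSum]
      refine sum_congr rfl fun k _ => ?_
      rw [FormalMultilinearSeries.apply_eq_pow_smul_coeff, smul_eq_mul, _root_.mul_pow]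
      ring
    rw [h1]
    refine ⟨Anal.sum _ _ (fun i _ => ?_) fun i _ => ?_, ?_⟩
    · have := ((Anal.const 1).mul_pow i).const_mul (p.coeff i * v ^ i)
      simpa using this
    · exact (Bd.pow_ze i).integrable.const_mul _
    · exact continuous_finsetSum _ fun i _ => continuous_const.mul (ze_continuous.pow i)
  have hint : ∀ n, Integrable (fun x : Circ => p.partialSum n (v * ze x)) mu := fun n =>
    (hpart n).2.integrable_of_hasCompactSupport (HasCompactSupport.of_compactSpace _)
  refine Anal.of_tendsto (h := fun n x => p.partialSum n (v * ze x)) hint ib (fun n => (hpart n).1) ?_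
  rw [Metric.tendsto_atTop]
  intro ε hε
  rw [Metric.tendstoUniformlyOn_iff] at hu
  obtain ⟨N, hN⟩ := (eventually_atTop.mp (hu (ε / 2) (by positivity)))
  refine ⟨N, fun n hn => ?_⟩
  rw [Real.dist_eq, sub_zero, abs_of_nonneg (integral_nonneg fun x => norm_nonneg _)]
  have h5 : ∫ x : Circ, ε / 2 ∂mu = ε / 2 := by simp
  refine lt_of_le_of_lt ?_ (half_lt_self hε)
  rw [← h5]
  refine integral_mono_of_nonneg (Eventually.of_forall fun x => norm_nonneg _) (integrable_const _)
    (Eventually.of_forall fun x => ?_)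
  have h6 := hN n hn (v * ze x) (by
    rw [Metric.mem_ball, dist_zero_right, norm_mul, norm_ze, mul_one]
    exact hr1)
  rw [zero_add, dist_comm, dist_eq_norm] at h6
  exact h6.le

/-- square root of `1 - y` -/
theorem sqrt_facts {z : ℂ} (hz : 0 < z.re) :
    ‖z ^ (2⁻¹ : ℂ)‖ ^ 2 = ‖z‖ ∧ Real.sqrt (‖z‖ / 2) ≤ (z ^ (2⁻¹ : ℂ)).re := by
  constructor
  · have h1 : (z ^ (2⁻¹ : ℂ)) ^ 2 = z := by
      have := Complex.cpow_nat_inv_pow z (two_ne_zero)
      push_cast at this
      exact this
    rw [← norm_pow, h1]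
  · rw [Complex.cpow_inv_two_re]
    apply Real.sqrt_le_sqrt
    linarith

/-- the function `A = (1 - w̄ ζ)^{-1/2}` -/
theorem exists_root {w : ℂ} (hw : ‖w‖ < 1) :
    ∃ A : Circ → ℂ, Anal A ∧ Continuous A ∧ (∀ x, ‖A x‖ ^ 2 = ‖kw w x‖) ∧
      ∀ x, ‖kw w x‖ ≤ 2 * (A x).re ^ 2 ∧ 0 < (A x).re := by
  have hv : ‖conj w‖ < 1 := by rwa [RCLike.norm_conj]
  have hre : ∀ x : Circ, 0 < (1 - conj w * ze x).re := by
    intro x
    rw [Complex.sub_re, Complex.one_re]
    have := Complex.re_le_norm (conj w * ze x)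
    rw [norm_mul, norm_ze, mul_one] at this
    linarith
  have hbase : Continuous fun x : Circ => 1 - conj w * ze x :=
    continuous_const.sub (continuous_const.mul ze_continuous)
  have hs : Continuous fun x : Circ => (1 - conj w * ze x) ^ (2⁻¹ : ℂ) := by
    rw [continuous_iff_continuousAt]
    intro x
    exact (hbase.continuousAt).cpow continuousAt_const (Or.inl (hre x))
  have hne : ∀ x : Circ, (1 - conj w * ze x) ^ (2⁻¹ : ℂ) ≠ 0 := by
    intro x h0
    have h1 := (sqrt_facts (hre x)).1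
    rw [h0, norm_zero] at h1
    have h2 : 0 < ‖1 - conj w * ze x‖ := lt_of_lt_of_le (hre x) (Complex.re_le_norm _)
    rw [← h1] at h2
    norm_num at h2
  have hkw : ∀ x : Circ, ‖kw w x‖ = ‖1 - conj w * ze x‖⁻¹ := by
    intro x
    rw [kw, norm_inv, ← conj_den, RCLike.norm_conj]
  refine ⟨fun x => 1 / (1 - conj w * ze x) ^ (2⁻¹ : ℂ), ?_, ?_, ?_, ?_⟩
  · refine anal_comp (Complex.one_div_one_sub_cpow_hasFPowerSeriesOnBall_zero (2⁻¹ : ℂ)) hv ?_
    exact continuous_const.div hs hne
  · exact continuous_const.div hs hne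
  · intro x
    rw [norm_div, norm_one, div_pow, one_pow, (sqrt_facts (hre x)).1, hkw, one_div]
  · intro x
    set s : ℂ := (1 - conj w * ze x) ^ (2⁻¹ : ℂ) with hsdef
    obtain ⟨f1, f2⟩ := sqrt_facts (hre x)
    have hN : 0 < ‖1 - conj w * ze x‖ := lt_of_lt_of_le (hre x) (Complex.re_le_norm _)
    have hA : (1 / s).re = s.re / ‖1 - conj w * ze x‖ := by
      rw [one_div, Complex.inv_re, Complex.normSq_eq_norm_sq, f1]
    have hsq : ‖1 - conj w * ze x‖ / 2 ≤ s.re ^ 2 := by
      calc ‖1 - conj w * ze x‖ / 2 = Real.sqrt (‖1 - conj w * ze x‖ / 2) ^ 2 := by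
            rw [Real.sq_sqrt (by positivity)]
        _ ≤ s.re ^ 2 := by gcongr
    have hspos : 0 < s.re := lt_of_lt_of_le (Real.sqrt_pos.mpr (by positivity)) f2
    refine ⟨?_, ?_⟩
    · simp only
      rw [hA, hkw, div_pow]
      rw [inv_eq_one_div, mul_div_assoc', div_le_div_iff₀ hN (by positivity)]
      nlinarith
    · simp only
      rw [hA]
      positivity

end Pool.Agent.Lib.MP_e9aa5f_an
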