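import Mathlib
import Pool.Agent.Lib.MP_e9aa5f_an.Root

set_option autoImplicit false

namespace Pool.Agent.Lib.MP_e9aa5f_an

open MeasureTheory AddCircle Filter Topology Finset
open scoped ENNReal NNReal ComplexConjugate

/-- Pointwise estimates for the cut-off. `e = f - a`, `ω = |A|²`. -/
theorem pointwise {f a A F : ℂ} {u ω : ℝ} (hf : ‖f‖ ≤ 1) (hω : 0 < ω) (hA : ‖A‖ ^ 2 = ω)
    (hA2 : ω ≤ 2 * A.re ^ 2) (hA3 : 0 < A.re) (hu : 0 ≤ u) (hF : F.re = u)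
    (hu2 : u ^ 2 = ‖f - a‖ * ω) :
    ‖a * (3 * (A * (A + F)⁻¹) ^ 2 - 2 * (A * (A + F)⁻¹) ^ 3)‖ ≤ 18 ∧
    ‖f - a * (3 * (A * (A + F)⁻¹) ^ 2 - 2 * (A * (A + F)⁻¹) ^ 3)‖ * ω
      ≤ 24 * (‖f - a‖ * ω) + 8 * ‖F‖ ^ 2 := by
  set e := ‖f - a‖ with he
  have he0 : 0 ≤ e := norm_nonneg _
  set H := A + F with hH
  have hHre : H.re = A.re + u := by rw [hH, Complex.add_re, hF]
  have hHpos : 0 < H.re := by rw [hHre]; linarith
  have hH0 : H ≠ 0 := by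
    intro h
    rw [h, Complex.zero_re] at hHpos
    exact lt_irrefl _ hHpos
  have hHn : H.re ≤ ‖H‖ := Complex.re_le_norm _
  have hHnpos : 0 < ‖H‖ := lt_of_lt_of_le hHpos hHn
  set p := A * H⁻¹ with hp
  have hpn : ‖p‖ ^ 2 = ω / ‖H‖ ^ 2 := by
    rw [hp, norm_mul, norm_inv, mul_pow, hA, inv_pow, div_eq_mul_inv]
  have hH2 : A.re ^ 2 ≤ ‖H‖ ^ 2 := by
    have : A.re ≤ ‖H‖ := by rw [hHre] at hHn; linarith
    gcongr
  have hH3 : u ^ 2 ≤ ‖H‖ ^ 2 := by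
    have : u ≤ ‖H‖ := by rw [hHre] at hHn; linarith
    gcongr
  -- `|p|² ≤ 2`
  have hp2 : ‖p‖ ^ 2 ≤ 2 := by
    rw [hpn, div_le_iff₀ (by positivity)]
    nlinarith
  -- `|p|² |e| ≤ 1`
  have hpe : ‖p‖ ^ 2 * e ≤ 1 := by
    rw [hpn, div_mul_eq_mul_div, div_le_one (by positivity)]
    rw [mul_comm]; rw [hu2] at hH3; exact hH3
  have hp1 : ‖p‖ ≤ 1.415 := by
    nlinarith [norm_nonneg p]
  have ha : ‖a‖ ≤ 1 + e := by
    have : a = f - (f - a) := by ring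
    calc ‖a‖ = ‖f - (f - a)‖ := by rw [← this]
      _ ≤ ‖f‖ + ‖f - a‖ := norm_sub_le _ _
      _ ≤ 1 + e := by rw [he]; linarith
  have h32 : ‖3 - 2 * p‖ ≤ 5.83 := by
    calc ‖3 - 2 * p‖ ≤ ‖(3 : ℂ)‖ + ‖2 * p‖ := norm_sub_le _ _
      _ = 3 + 2 * ‖p‖ := by rw [norm_mul]; norm_num
      _ ≤ 5.83 := by linarith
  have hφ : 3 * p ^ 2 - 2 * p ^ 3 = p ^ 2 * (3 - 2 * p) := by ring
  have hp2a : ‖p‖ ^ 2 * ‖a‖ ≤ 3 := by
    calc ‖p‖ ^ 2 * ‖a‖ ≤ ‖p‖ ^ 2 * (1 + e) := by gcongr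
      _ = ‖p‖ ^ 2 + ‖p‖ ^ 2 * e := by ring
      _ ≤ 3 := by linarith
  have h12 : ‖1 + 2 * p‖ ≤ 3.83 := by
    calc ‖1 + 2 * p‖ ≤ ‖(1 : ℂ)‖ + ‖2 * p‖ := norm_add_le _ _
      _ = 1 + 2 * ‖p‖ := by rw [norm_mul, norm_one]; norm_num
      _ ≤ 3.83 := by linarith
  have h1p : 1 - p = F * H⁻¹ := by
    rw [hp, eq_mul_inv_iff_mul_eq₀ hH0, sub_mul, mul_assoc, inv_mul_cancel₀ hH0, hH]
    ring
  have h1φ : 1 - (3 * p ^ 2 - 2 * p ^ 3) = (1 - p) ^ 2 * (1 + 2 * p) := by ring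
  -- first bound for `1 - φ`
  have hb1 : ‖1 - (3 * p ^ 2 - 2 * p ^ 3)‖ ≤ 23 := by
    rw [h1φ, norm_mul, norm_pow]
    have h3 : ‖1 - p‖ ≤ 2.415 := by
      calc ‖1 - p‖ ≤ ‖(1 : ℂ)‖ + ‖p‖ := norm_sub_le _ _
        _ ≤ 2.415 := by rw [norm_one]; linarith
    calc ‖1 - p‖ ^ 2 * ‖1 + 2 * p‖ ≤ 2.415 ^ 2 * 3.83 := by gcongr
      _ ≤ 23 := by norm_num
  -- second bound
  have hb2 : ‖1 - (3 * p ^ 2 - 2 * p ^ 3)‖ * ω ≤ 8 * ‖F‖ ^ 2 := by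
    rw [h1φ, norm_mul, norm_pow, h1p, norm_mul, norm_inv]
    have h4 : ω ≤ 2 * ‖H‖ ^ 2 := hA2.trans (by gcongr)
    calc (‖F‖ * ‖H‖⁻¹) ^ 2 * ‖1 + 2 * p‖ * ω ≤ (‖F‖ * ‖H‖⁻¹) ^ 2 * 3.83 * (2 * ‖H‖ ^ 2) := by gcongr
      _ = 7.66 * ‖F‖ ^ 2 := by
          field_simp
          ring
      _ ≤ 8 * ‖F‖ ^ 2 := by nlinarith [sq_nonneg ‖F‖]
  refine ⟨?_, ?_⟩
  · rw [hφ, norm_mul, norm_mul, norm_pow]
    calc ‖a‖ * (‖p‖ ^ 2 * ‖3 - 2 * p‖) = (‖p‖ ^ 2 * ‖a‖) * ‖3 - 2 * p‖ := by ring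
      _ ≤ 3 * 5.83 := by gcongr
      _ ≤ 18 := by norm_num
  · have h5 : f - a * (3 * p ^ 2 - 2 * p ^ 3) = (f - a) + a * (1 - (3 * p ^ 2 - 2 * p ^ 3)) := by ring
    have h6 : ‖f - a * (3 * p ^ 2 - 2 * p ^ 3)‖
        ≤ e + (1 + e) * ‖1 - (3 * p ^ 2 - 2 * p ^ 3)‖ := by
      rw [h5]
      refine (norm_add_le _ _).trans ?_
      rw [norm_mul, ← he]
      gcongr
    calc ‖f - a * (3 * p ^ 2 - 2 * p ^ 3)‖ * ω
        ≤ (e + (1 + e) * ‖1 - (3 * p ^ 2 - 2 * p ^ 3)‖) * ω := by gcongr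
      _ = e * ω + ‖1 - (3 * p ^ 2 - 2 * p ^ 3)‖ * ω + e * ω * ‖1 - (3 * p ^ 2 - 2 * p ^ 3)‖ := by ring
      _ ≤ e * ω + 8 * ‖F‖ ^ 2 + e * ω * 23 := by gcongr
      _ = 24 * (e * ω) + 8 * ‖F‖ ^ 2 := by ring

/-- The cut-off construction. -/
theorem cutoff {f : Circ → ℂ} (bf : Bd f 1) {w : ℂ} (hw : ‖w‖ < 1) (q : Polynomial ℂ) :
    ∃ b : Circ → ℂ, Anal b ∧ Bd b 18 ∧ ∫ x, ‖f x - b x‖ * ‖kw w x‖ ∂mu
      ≤ 96 * ∫ x, ‖f x * kw w x - ze x * q.eval (ze x)‖ ∂mu := by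
  -- the polynomial `a`
  set aP : Polynomial ℂ := (Polynomial.X - Polynomial.C w) * q with haP
  set a : Circ → ℂ := fun x => aP.eval (ze x) with ha
  have haA : Anal a := anal_poly aP
  obtain ⟨Ma, hMa⟩ := poly_bdd aP
  have ba : Bd a Ma := hMa
  have hkey : ∀ x, f x * kw w x - ze x * q.eval (ze x) = (f x - a x) * kw w x := by
    intro x
    have h1 : a x * kw w x = ze x * q.eval (ze x) := by
      have h2 := den_ne hw x
      have h3 := ze_ne x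
      rw [ha, haP, kw]
      simp only [Polynomial.eval_mul, Polynomial.eval_sub, Polynomial.eval_X, Polynomial.eval_C]
      have h7 : 1 - w * (ze x)⁻¹ = (ze x - w) * (ze x)⁻¹ := by field_simp
      have h6 : ze x - w ≠ 0 := by
        intro h
        apply h2
        rw [h7, h, zero_mul]
      rw [h7]
      field_simp
    rw [sub_mul, h1]
  have hnorm : ∀ x, ‖f x * kw w x - ze x * q.eval (ze x)‖ = ‖f x - a x‖ * ‖kw w x‖ := by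
    intro x; rw [hkey, norm_mul]
  simp_rw [hnorm]
  have bk := kw_bd hw
  have be := bf.sub ba
  have bek := be.mul bk
  -- the function `u`
  set u : Circ → ℝ := fun x => Real.sqrt (‖f x - a x‖ * ‖kw w x‖) with hu
  set Mu : ℝ := Real.sqrt ((1 + Ma) * (1 - ‖w‖)⁻¹) with hMu
  have bu : Bd (fun x => (u x : ℂ)) Mu := by
    refine ⟨?_, ?_⟩
    · refine Complex.continuous_ofReal.comp_aestronglyMeasurable ?_
      exact Real.continuous_sqrt.comp_aestronglyMeasurable (be.1.norm.mul bk.1.norm)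
    · filter_upwards [be.2, bk.2] with x h1 h2
      rw [Complex.norm_real, Real.norm_of_nonneg (Real.sqrt_nonneg _)]
      apply Real.sqrt_le_sqrt
      exact mul_le_mul h1 h2 (norm_nonneg _) ((norm_nonneg _).trans h1)
  have husq : ∀ x, u x ^ 2 = ‖f x - a x‖ * ‖kw w x‖ := fun x => Real.sq_sqrt (by positivity)
  obtain ⟨F, aF, mF, reF, intF⟩ := herglotz u bu
  obtain ⟨A, aA, cA, hA1, hA2⟩ := exists_root hw
  obtain ⟨MA, hMA⟩ := isCompact_univ.exists_bound_of_continuousOn cA.continuousOn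
  have bA : Bd A MA := Bd.of_continuous cA fun x => hMA x (Set.mem_univ x)
  have mH : MemLp (fun x => A x + F x) 2 mu := bA.memLp2.add mF
  have aH : Anal (fun x => A x + F x) := aA.add aF bA.integrable (mF.integrable (by norm_num))
  have hkpos : ∀ x, 0 < ‖kw w x‖ := by
    intro x
    rw [kw, norm_inv]
    exact inv_pos.mpr (norm_pos_iff.mpr (den_ne hw x))
  have hkge : ∀ x, 1 / 2 ≤ ‖kw w x‖ := by
    intro x
    rw [kw, norm_inv, one_div]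
    refine inv_anti₀ (norm_pos_iff.mpr (den_ne hw x)) ?_
    have := norm_den_le w x
    linarith
  have hAre : ∀ x, 1 / 2 ≤ (A x).re := by
    intro x
    have h1 := (hA2 x).1
    have h2 := hkge x
    nlinarith [(hA2 x).2]
  have hHre : ∀ᵐ x ∂mu, 1 / 2 ≤ (A x + F x).re := by
    filter_upwards [reF] with x hx
    rw [Complex.add_re, hx]
    have := hAre x
    have h2 : 0 ≤ u x := Real.sqrt_nonneg _
    linarith
  obtain ⟨aI, bI⟩ := aH.inv mH (1 / 2) (by norm_num) hHre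
  -- `p = A / (A + F)`
  have ap : Anal (fun x => A x * (A x + F x)⁻¹) := aA.mul aI bA.memLp2 bI
  have bp := bA.mul bI
  have p2 := ap.pow bp 2
  have p3 := ap.pow bp 3
  have aφ : Anal (fun x => 3 * (A x * (A x + F x)⁻¹) ^ 2 - 2 * (A x * (A x + F x)⁻¹) ^ 3) := by
    have h := (p2.1.const_mul 3).add (p3.1.const_mul (-2)) (p2.2.integrable.const_mul 3)
      (p3.2.integrable.const_mul (-2))
    refine h.congr (Eventually.of_forall fun x => ?_)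
    simp only
    ring
  have bφ : Bd (fun x => 3 * (A x * (A x + F x)⁻¹) ^ 2 - 2 * (A x * (A x + F x)⁻¹) ^ 3) _ :=
    ((Bd.const 3).mul p2.2).sub ((Bd.const 2).mul p3.2)
  have hpt : ∀ᵐ x ∂mu, ‖a x * (3 * (A x * (A x + F x)⁻¹) ^ 2 - 2 * (A x * (A x + F x)⁻¹) ^ 3)‖ ≤ 18 ∧
      ‖f x - a x * (3 * (A x * (A x + F x)⁻¹) ^ 2 - 2 * (A x * (A x + F x)⁻¹) ^ 3)‖ * ‖kw w x‖
        ≤ 24 * (‖f x - a x‖ * ‖kw w x‖) + 8 * ‖F x‖ ^ 2 := by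
    filter_upwards [bf.2, reF] with x h1 h2
    exact pointwise h1 (hkpos x) (hA1 x) (hA2 x).1 (hA2 x).2 (Real.sqrt_nonneg _) h2 (husq x)
  refine ⟨fun x => a x * (3 * (A x * (A x + F x)⁻¹) ^ 2 - 2 * (A x * (A x + F x)⁻¹) ^ 3),
    haA.mul aφ ba.memLp2 bφ, ⟨(ba.mul bφ).1, hpt.mono fun x hx => hx.1⟩, ?_⟩
  have iF2 : Integrable (fun x => ‖F x‖ ^ 2) mu := mF.integrable_norm_pow (by norm_num)
  have iek : Integrable (fun x => ‖f x - a x‖ * ‖kw w x‖) mu := by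
    refine (bek.integrable.norm).congr (Eventually.of_forall fun x => ?_)
    simp only
    rw [norm_mul]
  calc ∫ x, ‖f x - a x * (3 * (A x * (A x + F x)⁻¹) ^ 2 - 2 * (A x * (A x + F x)⁻¹) ^ 3)‖
        * ‖kw w x‖ ∂mu
      ≤ ∫ x, (24 * (‖f x - a x‖ * ‖kw w x‖) + 8 * ‖F x‖ ^ 2) ∂mu := by
        refine integral_mono_of_nonneg (Eventually.of_forall fun x => by positivity)
          ((iek.const_mul 24).add (iF2.const_mul 8)) (hpt.mono fun x hx => hx.2)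
    _ = 24 * ∫ x, ‖f x - a x‖ * ‖kw w x‖ ∂mu + 8 * ∫ x, ‖F x‖ ^ 2 ∂mu := by
        rw [integral_add (iek.const_mul 24) (iF2.const_mul 8), integral_const_mul, integral_const_mul]
    _ ≤ 24 * ∫ x, ‖f x - a x‖ * ‖kw w x‖ ∂mu + 8 * (9 * ∫ x, u x ^ 2 ∂mu) := by gcongr
    _ = 96 * ∫ x, ‖f x - a x‖ * ‖kw w x‖ ∂mu := by
        simp_rw [husq]
        ring

end Pool.Agent.Lib.MP_e9aa5f_an
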