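import Mathlib
import Pool.Agent.Lib.MP_e9aa5f_an.Cutoff

set_option autoImplicit false

namespace Pool.Agent.Lib.MP_e9aa5f_an

open MeasureTheory AddCircle Filter Topology Finset
open scoped ENNReal NNReal ComplexConjugate

/-- approximability by bounded analytic functions, uniformly in the weights `|1 - w ζ̄|⁻¹` -/
def App (f : Circ → ℂ) (R C : ℝ) : Prop := ∀ w : ℂ, ‖w‖ < 1 →
  ∃ b : Circ → ℂ, Anal b ∧ Bd b R ∧ ∫ x, ‖f x - b x‖ * ‖kw w x‖ ∂mu ≤ C

theorem app_of_st {f : Circ → ℂ} (hf : IsSTL f) {ρ : ℝ} (hρ : 0 < ρ) (bf : Bd f ρ) :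
    ∃ C, App f (18 * ρ) C := by
  obtain ⟨-, C0, hC0⟩ := hf
  refine ⟨96 * (C0 + 1 * ρ), fun w hw => ?_⟩
  have bf' : Bd (fun x => (ρ : ℂ)⁻¹ * f x) 1 := by
    refine ⟨aestronglyMeasurable_const.mul bf.1, ?_⟩
    filter_upwards [bf.2] with x hx
    rw [norm_mul, norm_inv, Complex.norm_real, Real.norm_of_nonneg hρ.le]
    calc ρ⁻¹ * ‖f x‖ ≤ ρ⁻¹ * ρ := by gcongr
      _ = 1 := inv_mul_cancel₀ hρ.ne'
  have hC : ∀ g : Polynomial ℂ, (∀ x, ‖g.eval (ze x)‖ ≤ 1) →
      ‖∫ x, f x * g.eval (ze x) * kw w x ∂mu‖ ≤ C0 := by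
    intro g hg
    have bg : Bd (fun x => g.eval (ze x)) 1 := Bd.of_continuous (poly_continuous g) hg
    have bfg := bf.mul bg
    have h1 := hC0 g 1 hg bfg.memLp2.toLp bfg.memLp2.coeFn_toLp
    have h2 : ∫ x, f x * g.eval (ze x) * kw w x ∂mu
        = ∫ x, (bfg.memLp2.toLp : Lp ℂ 2 mu) x * kw w x ∂mu := by
      refine integral_congr_ae ?_
      filter_upwards [bfg.memLp2.coeFn_toLp] with x hx
      rw [hx]
    rw [h2, ← integral_Pplus_kw hw]
    exact cauchy_bound hw (anal_Pplus _) ⟨Lp.aestronglyMeasurable _,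
      h1.mono fun x hx => hx.trans (le_of_eq (mul_one C0))⟩
  obtain ⟨q, hq⟩ := exists_approx bf hw C0 hC ρ hρ
  obtain ⟨b, ab, bb, hb⟩ := cutoff bf' hw (Polynomial.C (ρ : ℂ)⁻¹ * q)
  refine ⟨fun x => (ρ : ℂ) * b x, ab.const_mul _, ?_, ?_⟩
  · refine ⟨aestronglyMeasurable_const.mul bb.1, ?_⟩
    filter_upwards [bb.2] with x hx
    rw [norm_mul, Complex.norm_real, Real.norm_of_nonneg hρ.le, mul_comm (18 : ℝ)]
    gcongr
  · have hρc : (ρ : ℂ) ≠ 0 := by exact_mod_cast hρ.ne'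
    have h1 : ∀ x, ‖f x - ρ * b x‖ * ‖kw w x‖ = ρ * (‖(ρ : ℂ)⁻¹ * f x - b x‖ * ‖kw w x‖) := by
      intro x
      have h2 : f x - ρ * b x = ρ * ((ρ : ℂ)⁻¹ * f x - b x) := by field_simp
      rw [h2, norm_mul, Complex.norm_real, Real.norm_of_nonneg hρ.le]
      ring
    have h3 : ∀ x, ‖(ρ : ℂ)⁻¹ * f x * kw w x - ze x * (Polynomial.C (ρ : ℂ)⁻¹ * q).eval (ze x)‖
        = ρ⁻¹ * ‖f x * kw w x - ze x * q.eval (ze x)‖ := by
      intro x
      have h4 : (ρ : ℂ)⁻¹ * f x * kw w x - ze x * (Polynomial.C (ρ : ℂ)⁻¹ * q).eval (ze x)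
          = (ρ : ℂ)⁻¹ * (f x * kw w x - ze x * q.eval (ze x)) := by
        rw [Polynomial.eval_mul, Polynomial.eval_C]; ring
      rw [h4, norm_mul, norm_inv, Complex.norm_real, Real.norm_of_nonneg hρ.le]
    simp_rw [h1]
    simp_rw [h3] at hb
    rw [integral_const_mul] at hb ⊢
    calc ρ * ∫ x, ‖(ρ : ℂ)⁻¹ * f x - b x‖ * ‖kw w x‖ ∂mu
        ≤ ρ * (96 * (ρ⁻¹ * ∫ x, ‖f x * kw w x - ze x * q.eval (ze x)‖ ∂mu)) := by gcongr
      _ = 96 * ∫ x, ‖f x * kw w x - ze x * q.eval (ze x)‖ ∂mu := by field_simp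
      _ ≤ 96 * (C0 + 1 * ρ) := by rw [one_mul]; gcongr

theorem st_of_app {f : Circ → ℂ} (hf : MemLp f ⊤ mu) {R C : ℝ} (h : App f R C) : IsSTL f := by
  refine ⟨hf, C + R, ?_⟩
  intro g M hg Φ hΦ
  have bf := exists_Bd hf
  have bg : Bd (fun x => g.eval (ze x)) M := Bd.of_continuous (poly_continuous g) hg
  have hM : 0 ≤ M := bg.nonneg
  refine bound_of_interior (anal_Pplus Φ) (Lp.memLp _) _ fun w hw => ?_
  obtain ⟨b, ab, bb, hb⟩ := h w hw
  have bk := kw_bd hw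
  have h1 : ∫ x, Pplus Φ x * kw w x ∂mu
      = ∫ x, (f x - b x) * g.eval (ze x) * kw w x ∂mu + ∫ x, b x * g.eval (ze x) * kw w x ∂mu := by
    rw [integral_Pplus_kw hw, ← integral_add (((bf.sub bb).mul bg).mul bk).integrable
      ((bb.mul bg).mul bk).integrable]
    refine integral_congr_ae ?_
    filter_upwards [hΦ] with x hx
    rw [hx]; ring
  rw [h1]
  refine (norm_add_le _ _).trans ?_
  have h2 : ‖∫ x, (f x - b x) * g.eval (ze x) * kw w x ∂mu‖ ≤ C * M := by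
    have i1 : Integrable (fun x => ‖f x - b x‖ * ‖kw w x‖) mu := by
      refine (((bf.sub bb).mul bk).integrable.norm).congr (Eventually.of_forall fun x => ?_)
      simp only
      rw [norm_mul]
    calc ‖∫ x, (f x - b x) * g.eval (ze x) * kw w x ∂mu‖
        ≤ ∫ x, M * (‖f x - b x‖ * ‖kw w x‖) ∂mu := by
          refine norm_integral_le_of_norm_le (i1.const_mul M) (Eventually.of_forall fun x => ?_)
          rw [norm_mul, norm_mul]
          calc ‖f x - b x‖ * ‖g.eval (ze x)‖ * ‖kw w x‖ ≤ ‖f x - b x‖ * M * ‖kw w x‖ := by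
                gcongr
                exact hg x
            _ = M * (‖f x - b x‖ * ‖kw w x‖) := by ring
      _ = M * ∫ x, ‖f x - b x‖ * ‖kw w x‖ ∂mu := integral_const_mul _ _
      _ ≤ M * C := by gcongr
      _ = C * M := mul_comm _ _
  have h3 : ‖∫ x, b x * g.eval (ze x) * kw w x ∂mu‖ ≤ R * M :=
    cauchy_bound hw (ab.mul (anal_poly g) bb.memLp2 bg) (bb.mul bg)
  linarith

theorem app_congr {f g : Circ → ℂ} (h : f =ᵐ[mu] g) {R C : ℝ} (hf : App f R C) : App g R C := by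
  intro w hw
  obtain ⟨b, ab, bb, hb⟩ := hf w hw
  refine ⟨b, ab, bb, ?_⟩
  rw [← integral_congr_ae (f := fun x => ‖f x - b x‖ * ‖kw w x‖)]
  · exact hb
  · filter_upwards [h] with x hx
    rw [hx]

theorem app_mul {f g : Circ → ℂ} {ρ ρ' R R' C C' : ℝ} (bf : Bd f ρ) (bg : Bd g ρ')
    (hf : App f R C) (hg : App g R' C') :
    App (fun x => f x * g x) (R * R') (ρ * C' + R' * C) := by
  intro w hw
  obtain ⟨b, ab, bb, hb⟩ := hf w hw
  obtain ⟨b', ab', bb', hb'⟩ := hg w hw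
  have bk := kw_bd hw
  have i1 : Integrable (fun x => ‖f x - b x‖ * ‖kw w x‖) mu := by
    refine (((bf.sub bb).mul bk).integrable.norm).congr (Eventually.of_forall fun x => ?_)
    simp only
    rw [norm_mul]
  have i2 : Integrable (fun x => ‖g x - b' x‖ * ‖kw w x‖) mu := by
    refine (((bg.sub bb').mul bk).integrable.norm).congr (Eventually.of_forall fun x => ?_)
    simp only
    rw [norm_mul]
  refine ⟨fun x => b x * b' x, ab.mul ab' bb.memLp2 bb', bb.mul bb', ?_⟩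
  calc ∫ x, ‖f x * g x - b x * b' x‖ * ‖kw w x‖ ∂mu
      ≤ ∫ x, (ρ * (‖g x - b' x‖ * ‖kw w x‖) + R' * (‖f x - b x‖ * ‖kw w x‖)) ∂mu := by
        refine integral_mono_of_nonneg (Eventually.of_forall fun x => by positivity)
          ((i2.const_mul ρ).add (i1.const_mul R')) ?_
        filter_upwards [bf.2, bb'.2] with x h1 h2
        have h3 : f x * g x - b x * b' x = f x * (g x - b' x) + b' x * (f x - b x) := by ring
        have h4 : ‖f x * g x - b x * b' x‖ ≤ ρ * ‖g x - b' x‖ + R' * ‖f x - b x‖ := by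
          rw [h3]
          refine (norm_add_le _ _).trans ?_
          rw [norm_mul, norm_mul]
          gcongr
        calc ‖f x * g x - b x * b' x‖ * ‖kw w x‖
            ≤ (ρ * ‖g x - b' x‖ + R' * ‖f x - b x‖) * ‖kw w x‖ := by gcongr
          _ = _ := by ring
    _ = ρ * ∫ x, ‖g x - b' x‖ * ‖kw w x‖ ∂mu + R' * ∫ x, ‖f x - b x‖ * ‖kw w x‖ ∂mu := by
        rw [integral_add (i2.const_mul ρ) (i1.const_mul R'), integral_const_mul, integral_const_mul]
    _ ≤ ρ * C' + R' * C := by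
        have := bf.nonneg
        have := bb'.nonneg
        gcongr

theorem app_add {f g : Circ → ℂ} {ρ ρ' R R' C C' : ℝ} (bf : Bd f ρ) (bg : Bd g ρ')
    (hf : App f R C) (hg : App g R' C') :
    App (fun x => f x + g x) (R + R') (C + C') := by
  intro w hw
  obtain ⟨b, ab, bb, hb⟩ := hf w hw
  obtain ⟨b', ab', bb', hb'⟩ := hg w hw
  have bk := kw_bd hw
  have i1 : Integrable (fun x => ‖f x - b x‖ * ‖kw w x‖) mu := by
    refine (((bf.sub bb).mul bk).integrable.norm).congr (Eventually.of_forall fun x => ?_)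
    simp only
    rw [norm_mul]
  have i2 : Integrable (fun x => ‖g x - b' x‖ * ‖kw w x‖) mu := by
    refine (((bg.sub bb').mul bk).integrable.norm).congr (Eventually.of_forall fun x => ?_)
    simp only
    rw [norm_mul]
  refine ⟨fun x => b x + b' x, ab.add ab' bb.integrable bb'.integrable, bb.add bb', ?_⟩
  calc ∫ x, ‖f x + g x - (b x + b' x)‖ * ‖kw w x‖ ∂mu
      ≤ ∫ x, (‖f x - b x‖ * ‖kw w x‖ + ‖g x - b' x‖ * ‖kw w x‖) ∂mu := by
        refine integral_mono_of_nonneg (Eventually.of_forall fun x => by positivity)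
          (i1.add i2) (Eventually.of_forall fun x => ?_)
        have h3 : f x + g x - (b x + b' x) = (f x - b x) + (g x - b' x) := by ring
        simp only
        rw [h3, ← add_mul]
        gcongr
        exact norm_add_le _ _
    _ = ∫ x, ‖f x - b x‖ * ‖kw w x‖ ∂mu + ∫ x, ‖g x - b' x‖ * ‖kw w x‖ ∂mu := integral_add i1 i2
    _ ≤ C + C' := by gcongr

/-- analytic functions are trivially approximable -/
theorem app_anal {f : Circ → ℂ} {ρ : ℝ} (a : Anal f) (b : Bd f ρ) : App f ρ 0 := by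
  intro w _
  refine ⟨f, a, b, ?_⟩
  simp

theorem app_pow {f : Circ → ℂ} {ρ R C : ℝ} (bf : Bd f ρ) (hf : App f R C) (n : ℕ) :
    ∃ R' C', App (fun x => f x ^ n) R' C' ∧ Bd (fun x => f x ^ n) (ρ ^ n) := by
  induction n with
  | zero =>
    refine ⟨1, 0, ?_, ?_⟩
    · simp only [pow_zero]
      have := app_anal (Anal.const 1) (Bd.const 1)
      rwa [norm_one] at this
    · simp only [pow_zero]
      have := Bd.const 1
      rwa [norm_one] at this
  | succ n ih =>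
    obtain ⟨R', C', h1, h2⟩ := ih
    have hA := app_mul h2 bf h1 hf
    have hB := h2.mul bf
    simp only [← pow_succ] at hA hB
    exact ⟨_, _, hA, hB⟩

theorem app_geom {f : Circ → ℂ} {ρ R C : ℝ} (bf : Bd f ρ) (hf : App f R C) (n : ℕ) :
    ∃ R' C' ρ', App (fun x => ∑ k ∈ range n, f x ^ k) R' C' ∧
      Bd (fun x => ∑ k ∈ range n, f x ^ k) ρ' := by
  induction n with
  | zero =>
    refine ⟨‖(0 : ℂ)‖, 0, ‖(0 : ℂ)‖, ?_, ?_⟩
    · simp only [range_zero, sum_empty]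
      exact app_anal (Anal.const 0) (Bd.const 0)
    · simp only [range_zero, sum_empty]
      exact Bd.const 0
  | succ n ih =>
    obtain ⟨R', C', ρ', h1, h2⟩ := ih
    obtain ⟨R'', C'', h3, h4⟩ := app_pow bf hf n
    have hA := app_add h2 h4 h1 h3
    have hB := h2.add h4
    simp only [← sum_range_succ] at hA hB
    exact ⟨_, _, _, hA, hB⟩

/-- inverse of `1 - g` when the approximants of `g` are bounded by `1/2` -/
theorem app_inv {g : Circ → ℂ} {r C : ℝ} (hr : r < 1) (bg : Bd g r) (hg : App g (1 / 2) C) :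
    App (fun x => (1 - g x)⁻¹) 2 (2 * (1 - r)⁻¹ * C) ∧ Bd (fun x => (1 - g x)⁻¹) (1 - r)⁻¹ := by
  have hre : ∀ (h : Circ → ℂ) (s : ℝ), Bd h s → ∀ᵐ x ∂mu, 1 - s ≤ (1 - h x).re := by
    intro h s hs
    filter_upwards [hs.2] with x hx
    rw [Complex.sub_re, Complex.one_re]
    have := Complex.re_le_norm (h x)
    linarith
  have hb1 : Bd (fun x => (1 - g x)⁻¹) (1 - r)⁻¹ := by
    refine ⟨(aestronglyMeasurable_const.sub bg.1).aemeasurable.inv.aestronglyMeasurable, ?_⟩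
    filter_upwards [hre g r bg] with x hx
    rw [norm_inv]
    exact inv_anti₀ (by linarith) (hx.trans (Complex.re_le_norm _))
  refine ⟨?_, hb1⟩
  intro w hw
  obtain ⟨b, ab, bb, hb⟩ := hg w hw
  have a1 : Anal (fun x => 1 - b x) := by
    refine ((Anal.const 1).add (ab.const_mul (-1)) (integrable_const 1)
      (bb.integrable.const_mul _)).congr (Eventually.of_forall fun x => ?_)
    simp only
    ring
  have b1 : Bd (fun x => 1 - b x) (‖(1 : ℂ)‖ + 1 / 2) := (Bd.const 1).sub bb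
  obtain ⟨a2, b2⟩ := a1.inv_bdd b1 (1 / 2) (by norm_num) (by
    have := hre b (1 / 2) bb
    filter_upwards [this] with x hx
    linarith)
  have b2' : Bd (fun x => (1 - b x)⁻¹) 2 := b2.mono (by norm_num)
  have bk := kw_bd hw
  have i1 : Integrable (fun x => ‖g x - b x‖ * ‖kw w x‖) mu := by
    refine (((bg.sub bb).mul bk).integrable.norm).congr (Eventually.of_forall fun x => ?_)
    simp only
    rw [norm_mul]
  refine ⟨fun x => (1 - b x)⁻¹, a2, b2', ?_⟩
  have hr' : 0 < 1 - r := by linarith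
  calc ∫ x, ‖(1 - g x)⁻¹ - (1 - b x)⁻¹‖ * ‖kw w x‖ ∂mu
      ≤ ∫ x, 2 * (1 - r)⁻¹ * (‖g x - b x‖ * ‖kw w x‖) ∂mu := by
        refine integral_mono_of_nonneg (Eventually.of_forall fun x => by positivity)
          (i1.const_mul _) ?_
        filter_upwards [hb1.2, b2'.2, hre g r bg, hre b (1 / 2) bb] with x h1 h2 h3 h4
        have n1 : 1 - g x ≠ 0 := by
          intro h0
          rw [h0, Complex.zero_re] at h3
          linarith
        have n2 : 1 - b x ≠ 0 := by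
          intro h0
          rw [h0, Complex.zero_re] at h4
          linarith
        have h5 : (1 - g x)⁻¹ - (1 - b x)⁻¹ = (1 - g x)⁻¹ * (1 - b x)⁻¹ * (g x - b x) := by
          field_simp
          ring
        rw [h5, norm_mul, norm_mul]
        calc ‖(1 - g x)⁻¹‖ * ‖(1 - b x)⁻¹‖ * ‖g x - b x‖ * ‖kw w x‖
            ≤ (1 - r)⁻¹ * 2 * ‖g x - b x‖ * ‖kw w x‖ := by gcongr
          _ = _ := by ring
    _ = 2 * (1 - r)⁻¹ * ∫ x, ‖g x - b x‖ * ‖kw w x‖ ∂mu := integral_const_mul _ _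
    _ ≤ 2 * (1 - r)⁻¹ * C := by gcongr

theorem st_inv {f : Circ → ℂ} (hf : IsSTL f) (h1 : eLpNorm f ⊤ mu < 1) :
    IsSTL (fun x => 1 / (1 - f x)) := by
  have bf0 := exists_Bd hf.1
  set r0 : ℝ := (eLpNorm f ⊤ mu).toReal with hr0
  have hr1 : r0 < 1 := by
    have := (ENNReal.toReal_lt_toReal hf.1.2.ne ENNReal.one_ne_top).mpr h1
    rw [ENNReal.toReal_one] at this
    exact this
  set ρ : ℝ := max r0 (1 / 2) with hρ
  have hρ0 : 0 < ρ := lt_of_lt_of_le (by norm_num) (le_max_right _ _)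
  have hρ1 : ρ < 1 := max_lt hr1 (by norm_num)
  have bf : Bd f ρ := bf0.mono (le_max_left _ _)
  obtain ⟨C, hC⟩ := app_of_st hf hρ0 bf
  obtain ⟨N, hN⟩ := exists_pow_lt_of_lt_one (show (0 : ℝ) < 1 / 36 by norm_num) hρ1
  have hN1 : ρ ^ N < 1 := lt_trans hN (by norm_num)
  -- the power `f ^ N`
  obtain ⟨R1, C1, hA1, hB1⟩ := app_pow bf hC N
  have hst : IsSTL (fun x => f x ^ N) := st_of_app hB1.memLp hA1
  obtain ⟨C2, hC2⟩ := app_of_st hst (show (0 : ℝ) < ρ ^ N by positivity) hB1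
  have hC2' : App (fun x => f x ^ N) (1 / 2) C2 := by
    intro w hw
    obtain ⟨b, ab, bb, hb⟩ := hC2 w hw
    exact ⟨b, ab, bb.mono (by linarith), hb⟩
  obtain ⟨hA3, hB3⟩ := app_inv hN1 hB1 hC2'
  obtain ⟨R4, C4, ρ4, hA4, hB4⟩ := app_geom bf hC N
  have hA5 := app_mul hB4 hB3 hA4 hA3
  have hB5 := hB4.mul hB3
  have hcongr : (fun x => (∑ k ∈ range N, f x ^ k) * (1 - f x ^ N)⁻¹) =ᵐ[mu]
      fun x => 1 / (1 - f x) := by
    filter_upwards [bf.2] with x hx
    have n1 : 1 - f x ≠ 0 := by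
      intro h0
      rw [sub_eq_zero] at h0
      rw [← h0, norm_one] at hx
      linarith
    have n2 : 1 - f x ^ N ≠ 0 := by
      intro h0
      rw [sub_eq_zero] at h0
      have : ‖f x ^ N‖ ≤ ρ ^ N := by
        rw [norm_pow]
        gcongr
      rw [← h0, norm_one] at this
      linarith
    have h6 := mul_neg_geom_sum (f x) N
    rw [← div_eq_mul_inv, div_eq_div_iff n2 n1, one_mul, ← h6, mul_comm]
  refine st_of_app (hB5.memLp.ae_eq hcongr) (app_congr hcongr hA5)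

theorem isGDAlgebra_STL : IsGDAlgebra {f | IsSTL f} := by
  refine ⟨fun f hf => hf.1, ?_, ?_, ?_, ?_, ?_, fun f hf h => st_inv hf h⟩
  · rintro f ⟨hf, C, hC⟩ g hfg
    refine ⟨hf.ae_eq hfg, C, fun p M hp Φ hΦ => hC p M hp Φ ?_⟩
    filter_upwards [hΦ, hfg] with x h1 h2
    rw [h1, h2]
  · rintro f ⟨hf, hcoef⟩
    exact st_of_app hf (app_anal (anal_of_coeff hcoef) (exists_Bd hf))
  · intro f hf g hg
    have bf := exists_Bd hf.1
    have bg := exists_Bd hg.1
    have bf' := bf.mono (show _ ≤ (eLpNorm f ⊤ mu).toReal + 1 by linarith)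
    have bg' := bg.mono (show _ ≤ (eLpNorm g ⊤ mu).toReal + 1 by linarith)
    obtain ⟨C, hC⟩ := app_of_st hf (by linarith [bf.nonneg]) bf'
    obtain ⟨C', hC'⟩ := app_of_st hg (by linarith [bg.nonneg]) bg'
    exact st_of_app (hf.1.add hg.1) (app_add bf' bg' hC hC')
  · intro c f hf
    have bf := exists_Bd hf.1
    have bf' := bf.mono (show _ ≤ (eLpNorm f ⊤ mu).toReal + 1 by linarith)
    obtain ⟨C, hC⟩ := app_of_st hf (by linarith [bf.nonneg]) bf'
    exact st_of_app (hf.1.const_mul c) (app_mul (Bd.const c) bf' (app_anal (Anal.const c) (Bd.const c)) hC)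
  · intro f hf g hg
    have bf := exists_Bd hf.1
    have bg := exists_Bd hg.1
    have bf' := bf.mono (show _ ≤ (eLpNorm f ⊤ mu).toReal + 1 by linarith)
    have bg' := bg.mono (show _ ≤ (eLpNorm g ⊤ mu).toReal + 1 by linarith)
    obtain ⟨C, hC⟩ := app_of_st hf (by linarith [bf.nonneg]) bf'
    obtain ⟨C', hC'⟩ := app_of_st hg (by linarith [bg.nonneg]) bg'
    exact st_of_app (bf.mul bg).memLp (app_mul bf' bg' hC hC')

theorem isRieszProj_Pplus {h : Circ → ℂ} {Φ : Lp ℂ 2 mu} (hΦ : Φ =ᵐ[mu] h) :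
    IsRieszProj h (Pplus Φ) := by
  refine ⟨Lp.memLp _, fun n => ?_⟩
  split_ifs with hn
  · obtain ⟨m, rfl⟩ : ∃ m : ℕ, n = m := ⟨n.toNat, by omega⟩
    rw [coeff_Pplus, fourierCoeff_congr_ae hΦ]
  · exact coeff_Pplus_neg Φ n (by omega)

theorem eq_Pplus_of_isRieszProj {h u : Circ → ℂ} {Φ : Lp ℂ 2 mu} (hΦ : Φ =ᵐ[mu] h)
    (hu : IsRieszProj h u) : Pplus Φ =ᵐ[mu] u := by
  obtain ⟨mu2, hc⟩ := hu
  have h1 : Pplus Φ = mu2.toLp := by
    rw [← sub_eq_zero]
    apply eq_zero_of_coeff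
    intro n
    rw [coeff_inner, inner_sub_right, ← coeff_inner, ← coeff_inner,
      fourierCoeff_congr_ae mu2.coeFn_toLp, hc n, (isRieszProj_Pplus hΦ).2 n, sub_self]
  rw [h1]
  exact mu2.coeFn_toLp

theorem isST_iff {f : Circ → ℂ} : IsST f ↔ IsSTL f := by
  constructor
  · rintro ⟨hf, C, hC⟩
    refine ⟨hf, C, fun g M hg Φ hΦ => ?_⟩
    obtain ⟨u, hu, hb⟩ := hC g M hg
    filter_upwards [eq_Pplus_of_isRieszProj hΦ hu, hb] with x h1 h2
    rw [h1]
    exact h2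
  · rintro ⟨hf, C, hC⟩
    refine ⟨hf, C, fun g M hg => ?_⟩
    have bfg := (exists_Bd hf).mul (Bd.of_continuous (poly_continuous g) hg)
    exact ⟨_, isRieszProj_Pplus bfg.memLp2.coeFn_toLp, hC g M hg _ bfg.memLp2.coeFn_toLp⟩

theorem isGDAlgebra_ST : IsGDAlgebra {f | IsST f} := by
  have h : {f : Circ → ℂ | IsST f} = {f | IsSTL f} := by
    ext f
    exact isST_iff
  rw [h]
  exact isGDAlgebra_STL

end Pool.Agent.Lib.MP_e9aa5f_an
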